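import Pool.Agent.H.MP_c52a20_co.Count

set_option autoImplicit false

namespace Pool.Agent.H.MP_769135_co

open PowerSeries
open Pool.Agent.H.MP_c52a20_co (gf FinF hN hP fP gP fN1 fN2 gN1 gN2 finF_nat gf_nat)

lemma fF {B : Type} [Finite B] (h : B → ℕ) : FinF h := fun _ => Set.toFinite _

lemma gF {B : Type} [Fintype B] (h : B → ℕ) : gf h = ∑ b, X ^ (h b) := by
  classical
  ext m
  simp only [gf, coeff_mk, map_sum, coeff_X_pow]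
  rw [Set.ncard_eq_toFinset_card']
  simp only [Set.toFinset_ofPred, Finset.card_filter]
  push_cast
  refine Finset.sum_congr rfl fun b _ => ?_
  simp [eq_comm]

lemma fN3 : FinF (hN 3) := finF_nat 3 (by norm_num)
lemma fN4 : FinF (hN 4) := finF_nat 4 (by norm_num)
lemma gN3 : gf (hN 3) * (1 - X ^ 3) = 1 := gf_nat 3 (by norm_num)
lemma gN4 : gf (hN 4) * (1 - X ^ 4) = 1 := gf_nat 4 (by norm_num)

def BP (Q : (Fin 4 → ℤ) → Prop) (ht : (Fin 4 → ℤ) → ℤ) (D N : PowerSeries ℤ) : Prop :=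
  ∃ (B : Type) (hB : B → ℕ) (Φ : B → Fin 4 → ℤ), FinF hB ∧ gf hB * D = N ∧
    Function.Injective Φ ∧ (∀ x, Q x ↔ ∃ b, Φ b = x) ∧ ∀ b, ht (Φ b) = hB b

def p1 (v : Fin 11 → ℤ) : Fin 4 → ℤ := ![v 0, v 1, v 2, v 3]
def p3 (v : Fin 11 → ℤ) : Fin 4 → ℤ := ![v 7, v 8, v 9, v 10]
def ht1 (x : Fin 4 → ℤ) : ℤ := x 0 + x 1 + x 2
def ht2 (x : Fin 4 → ℤ) : ℤ := x 3
def ht3 (x : Fin 4 → ℤ) : ℤ := x 1 + x 3
def p2 (m : ℤ) (v : Fin 11 → ℤ) : Fin 4 → ℤ := ![v 4, v 5, v 6, m - ht1 (p1 v) - ht3 (p3 v)]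

def glue (x y z : Fin 4 → ℤ) : Fin 11 → ℤ :=
  ![x 0, x 1, x 2, x 3, y 0, y 1, y 2, z 0, z 1, z 2, z 3]

lemma p1_glue (x y z : Fin 4 → ℤ) : p1 (glue x y z) = x := by
  ext i; fin_cases i <;> simp [p1, glue]
lemma p3_glue (x y z : Fin 4 → ℤ) : p3 (glue x y z) = z := by
  ext i; fin_cases i <;> simp [p3, glue]
lemma p2_glue (m : ℤ) (x y z : Fin 4 → ℤ) (h : ht1 x + (ht2 y + ht3 z) = m) :
    p2 m (glue x y z) = y := by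
  ext i
  simp only [p2, p1_glue, p3_glue]
  fin_cases i <;> simp [glue]
  simp only [ht2] at h
  omega
lemma glue_p (m : ℤ) (v : Fin 11 → ℤ) : glue (p1 v) (p2 m v) (p3 v) = v := by
  ext i; fin_cases i <;> simp [glue, p1, p2, p3]

lemma combine {Q1 Q2 Q3 : (Fin 4 → ℤ) → Prop} {D1 D2 D3 N1 N2 N3 : PowerSeries ℤ}
    (b1 : BP Q1 ht1 D1 N1) (b2 : BP Q2 ht2 D2 N2) (b3 : BP Q3 ht3 D3 N3) :
    (PowerSeries.mk fun m : ℕ =>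
      ((Set.ncard {v : Fin 11 → ℤ | Q1 (p1 v) ∧ Q2 (p2 m v) ∧ Q3 (p3 v)} : ℕ) : ℤ))
      * (D1 * D2 * D3) = N1 * N2 * N3 := by
  obtain ⟨B1, h1, Φ1, f1, g1, i1, s1, t1⟩ := b1
  obtain ⟨B2, h2, Φ2, f2, g2, i2, s2, t2⟩ := b2
  obtain ⟨B3, h3, Φ3, f3, g3, i3, s3, t3⟩ := b3
  have key : (PowerSeries.mk fun m : ℕ =>
      ((Set.ncard {v : Fin 11 → ℤ | Q1 (p1 v) ∧ Q2 (p2 m v) ∧ Q3 (p3 v)} : ℕ) : ℤ))
      = gf (hP h1 (hP h2 h3)) := by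
    ext m
    simp only [gf, coeff_mk]
    have hm : ∀ p : B1 × B2 × B3, hP h1 (hP h2 h3) p = m →
        ht1 (Φ1 p.1) + (ht2 (Φ2 p.2.1) + ht3 (Φ3 p.2.2)) = m := by
      intro p hp
      rw [t1, t2, t3, ← hp]
      simp [hP]
    have him : {v : Fin 11 → ℤ | Q1 (p1 v) ∧ Q2 (p2 m v) ∧ Q3 (p3 v)} =
        (fun p : B1 × B2 × B3 => glue (Φ1 p.1) (Φ2 p.2.1) (Φ3 p.2.2)) ''
          {p | hP h1 (hP h2 h3) p = m} := by
      ext v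
      constructor
      · rintro ⟨q1, q2, q3⟩
        obtain ⟨c1, e1⟩ := (s1 _).1 q1
        obtain ⟨c2, e2⟩ := (s2 _).1 q2
        obtain ⟨c3, e3⟩ := (s3 _).1 q3
        refine ⟨(c1, c2, c3), ?_, ?_⟩
        · have a1 := t1 c1
          have a2 := t2 c2
          have a3 := t3 c3
          rw [e1] at a1; rw [e2] at a2; rw [e3] at a3
          simp only [ht2, p2] at a2
          simp at a2
          simp only [Set.mem_ofPred_eq, hP]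
          omega
        · simp only [e1, e2, e3, glue_p]
      · rintro ⟨p, hp, rfl⟩
        simp only [Set.mem_ofPred_eq, p1_glue, p3_glue, p2_glue _ _ _ _ (hm p hp)]
        exact ⟨(s1 _).2 ⟨_, rfl⟩, (s2 _).2 ⟨_, rfl⟩, (s3 _).2 ⟨_, rfl⟩⟩
    rw [him, Set.InjOn.ncard_image]
    intro p hp q hq h
    have a1 := congrArg p1 h
    have a3 := congrArg p3 h
    have a2 := congrArg (p2 m) h
    simp only [p1_glue, p3_glue, p2_glue _ _ _ _ (hm p hp), p2_glue _ _ _ _ (hm q hq)] at a1 a2 a3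
    exact Prod.ext (i1 a1) (Prod.ext (i2 a2) (i3 a3))
  rw [key, gP f1 (fP f2 f3), gP f2 f3, ← g1, ← g2, ← g3]
  ring

def QF (x : Fin 4 → ℤ) : Prop := 0 ≤ x 0 ∧ 0 ≤ x 1 ∧ 0 ≤ x 2 ∧ 0 ≤ x 3 ∧ x 3 ≤ x 0 + x 1 + x 2
def QC (x : Fin 4 → ℤ) : Prop :=
  0 ≤ x 0 ∧ 0 ≤ 6 * x 1 + x 0 ∧ 0 ≤ 2 * x 2 + x 0 ∧ 6 * x 1 + 6 * x 2 + 5 * x 0 ≤ 6 * x 3
def QW (x : Fin 4 → ℤ) : Prop := 0 ≤ x 0 ∧ x 0 ≤ 3 * x 1 ∧ 0 ≤ x 2 ∧ x 2 ≤ 3 * x 3

lemma vec_ext {x y : Fin 4 → ℤ} : x = y ↔ x 0 = y 0 ∧ x 1 = y 1 ∧ x 2 = y 2 ∧ x 3 = y 3 := by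
  constructor
  · rintro rfl; simp
  · rintro ⟨h0, h1, h2, h3⟩
    ext i; fin_cases i <;> assumption

lemma bpC : BP QC ht2 ((1 - X) ^ 4) ((1 + X) * (1 + X + X ^ 2)) := by
  refine ⟨Fin 6 × ℕ × ℕ × ℕ × ℕ,
    hP (fun j : Fin 6 => (j.val + 1) / 2) (hP (hN 1) (hP (hN 1) (hP (hN 1) (hN 1)))),
    fun p => ![6 * p.2.2.1 + p.1.val, (p.2.2.2.1 : ℤ) - p.2.2.1,
      (p.2.2.2.2 : ℤ) - 3 * p.2.2.1 - p.1.val / 2,
      p.2.1 + p.2.2.1 + p.2.2.2.1 + p.2.2.2.2 + (p.1.val + 1) / 2],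
    fP (fF _) (fP fN1 (fP fN1 (fP fN1 fN1))), ?_, ?_, ?_, ?_⟩
  · rw [gP (fF _) (fP fN1 (fP fN1 (fP fN1 fN1))), gP fN1 (fP fN1 (fP fN1 fN1)),
      gP fN1 (fP fN1 fN1), gP fN1 fN1, gF]
    simp only [Fin.sum_univ_succ]
    simp
    linear_combination (1 + X) * (1 + X + X ^ 2) * ((gf (hN 1) * (1 - X)) ^ 3
      + (gf (hN 1) * (1 - X)) ^ 2 + (gf (hN 1) * (1 - X)) + 1) * gN1
  · rintro ⟨j, a, b, c, d⟩ ⟨j', a', b', c', d'⟩ h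
    rw [vec_ext] at h
    simp at h
    have := j.2; have := j'.2
    simp [Fin.ext_iff]
    omega
  · intro x
    constructor
    · rintro ⟨h1, h2, h3, h4⟩
      refine ⟨(⟨(x 0 % 6).toNat, by omega⟩, (x 3 - x 1 - x 2 - 5 * (x 0 / 6) - x 0 % 6).toNat,
        (x 0 / 6).toNat, (x 1 + x 0 / 6).toNat, (x 2 + 3 * (x 0 / 6) + x 0 % 6 / 2).toNat), ?_⟩
      rw [vec_ext]
      have hh : x 0 % 6 = 0 ∨ x 0 % 6 = 1 ∨ x 0 % 6 = 2 ∨ x 0 % 6 = 3 ∨ x 0 % 6 = 4 ∨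
        x 0 % 6 = 5 := by omega
      rcases hh with h | h | h | h | h | h <;> simp [h] <;> omega
    · rintro ⟨⟨j, a, b, c, d⟩, rfl⟩
      have := j.2
      simp [QC]
      omega
  · rintro ⟨j, a, b, c, d⟩
    simp [ht2, hP, hN]
    omega

lemma bpW0 : BP QW ht3 ((1 - X) ^ 4) ((1 + 2 * X) ^ 2) := by
  have f : FinF (hP (fun j : Fin 3 => (j.val + 1) / 2) (hP (hN 1) (hN 1))) := fP (fF _) (fP fN1 fN1)
  refine ⟨(Fin 3 × ℕ × ℕ) × (Fin 3 × ℕ × ℕ),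
    hP (hP (fun j : Fin 3 => (j.val + 1) / 2) (hP (hN 1) (hN 1)))
      (hP (fun j : Fin 3 => (j.val + 1) / 2) (hP (hN 1) (hN 1))),
    fun p => ![3 * p.1.2.1 + p.1.1.val, p.1.2.1 + p.1.2.2 + (p.1.1.val + 1) / 2,
      3 * p.2.2.1 + p.2.1.val, p.2.2.1 + p.2.2.2 + (p.2.1.val + 1) / 2],
    fP f f, ?_, ?_, ?_, ?_⟩
  · rw [gP f f, gP (fF _) (fP fN1 fN1), gP fN1 fN1, gF]
    simp only [Fin.sum_univ_succ]
    simp
    linear_combination (1 + 2 * X) ^ 2 * ((gf (hN 1) * (1 - X)) ^ 3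
      + (gf (hN 1) * (1 - X)) ^ 2 + (gf (hN 1) * (1 - X)) + 1) * gN1
  · rintro ⟨⟨j, a, b⟩, ⟨l, c, d⟩⟩ ⟨⟨j', a', b'⟩, ⟨l', c', d'⟩⟩ h
    rw [vec_ext] at h
    simp at h
    have := j.2; have := j'.2; have := l.2; have := l'.2
    simp [Fin.ext_iff]
    omega
  · intro x
    constructor
    · rintro ⟨h1, h2, h3, h4⟩
      refine ⟨((⟨(x 0 % 3).toNat, by omega⟩, (x 0 / 3).toNat,
          (x 1 - x 0 / 3 - (x 0 % 3 + 1) / 2).toNat),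
        (⟨(x 2 % 3).toNat, by omega⟩, (x 2 / 3).toNat,
          (x 3 - x 2 / 3 - (x 2 % 3 + 1) / 2).toNat)), ?_⟩
      rw [vec_ext]
      simp
      omega
    · rintro ⟨⟨⟨j, a, b⟩, ⟨l, c, d⟩⟩, rfl⟩
      have := j.2; have := l.2
      simp [QW]
      omega
  · rintro ⟨⟨j, a, b⟩, ⟨l, c, d⟩⟩
    simp [ht3, hP, hN]
    omega

lemma bpW2 : BP (fun x => QW x ∧ 2 * x 0 = 3 * x 1 ∧ 2 * x 2 = 3 * x 3) ht3
    ((1 - X ^ 2) ^ 2) 1 := by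
  refine ⟨ℕ × ℕ, hP (hN 2) (hN 2), fun p => ![3 * p.1, 2 * p.1, 3 * p.2, 2 * p.2],
    fP fN2 fN2, ?_, ?_, ?_, ?_⟩
  · rw [gP fN2 fN2]
    linear_combination (gf (hN 2) * (1 - X ^ 2) + 1) * gN2
  · rintro ⟨a, b⟩ ⟨a', b'⟩ h
    rw [vec_ext] at h
    simp at h
    simp
    omega
  · intro x
    constructor
    · rintro ⟨⟨h1, h2, h3, h4⟩, h5, h6⟩
      refine ⟨((x 1 / 2).toNat, (x 3 / 2).toNat), ?_⟩
      rw [vec_ext]
      simp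
      omega
    · rintro ⟨⟨a, b⟩, rfl⟩
      simp [QW]
      omega
  · rintro ⟨a, b⟩
    simp [ht3, hP, hN]

lemma bpW1 : BP (fun x => QW x ∧ 2 * x 0 = 3 * x 1 ∧ x 0 = x 2 ∧ x 1 = x 3) ht3
    (1 - X ^ 4) 1 := by
  refine ⟨ℕ, hN 4, fun p => ![3 * p, 2 * p, 3 * p, 2 * p], fN4, gN4, ?_, ?_, ?_⟩
  · intro a a' h
    rw [vec_ext] at h
    simp at h
    omega
  · intro x
    constructor
    · rintro ⟨⟨h1, h2, h3, h4⟩, h5, h6, h7⟩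
      refine ⟨(x 1 / 2).toNat, ?_⟩
      rw [vec_ext]
      simp
      omega
    · rintro ⟨a, rfl⟩
      simp [QW]
      omega
  · intro a
    simp [ht3, hN]
    omega

lemma bpF0 : BP QF ht1 ((1 - X) ^ 4) (1 + 2 * X) := by
  refine ⟨Fin 3 × ℕ × ℕ × ℕ × ℕ,
    hP (fun j : Fin 3 => (j.val + 1) / 2) (hP (hN 1) (hP (hN 1) (hP (hN 1) (hN 1)))),
    fun p => if p.1.val = 0 then ![p.2.1 + p.2.2.1, p.2.2.2.1, p.2.2.2.2, p.2.1]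
      else if p.1.val = 1 then ![p.2.1, p.2.2.1 + p.2.2.2.1 + 1, p.2.2.2.2, p.2.1 + p.2.2.1 + 1]
      else ![p.2.1, p.2.2.1, p.2.2.2.1 + p.2.2.2.2 + 1, p.2.1 + p.2.2.1 + p.2.2.2.1 + 1],
    fP (fF _) (fP fN1 (fP fN1 (fP fN1 fN1))), ?_, ?_, ?_, ?_⟩
  · rw [gP (fF _) (fP fN1 (fP fN1 (fP fN1 fN1))), gP fN1 (fP fN1 (fP fN1 fN1)),
      gP fN1 (fP fN1 fN1), gP fN1 fN1, gF]
    simp only [Fin.sum_univ_succ]
    simp
    linear_combination (1 + 2 * X) * ((gf (hN 1) * (1 - X)) ^ 3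
      + (gf (hN 1) * (1 - X)) ^ 2 + (gf (hN 1) * (1 - X)) + 1) * gN1
  · rintro ⟨j, a, b, c, d⟩ ⟨j', a', b', c', d'⟩ h
    rw [vec_ext] at h
    fin_cases j <;> fin_cases j' <;> simp at h ⊢ <;> omega
  · intro x
    constructor
    · rintro ⟨h1, h2, h3, h4, h5⟩
      rcases le_or_gt (x 3) (x 0) with h | h
      · refine ⟨(0, (x 3).toNat, (x 0 - x 3).toNat, (x 1).toNat, (x 2).toNat), ?_⟩
        rw [vec_ext]; simp; omega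
      · rcases le_or_gt (x 3) (x 0 + x 1) with h' | h'
        · refine ⟨(1, (x 0).toNat, (x 3 - x 0 - 1).toNat, (x 0 + x 1 - x 3).toNat,
            (x 2).toNat), ?_⟩
          rw [vec_ext]; simp; omega
        · refine ⟨(2, (x 0).toNat, (x 1).toNat, (x 3 - x 0 - x 1 - 1).toNat,
            (x 0 + x 1 + x 2 - x 3).toNat), ?_⟩
          rw [vec_ext]; simp; omega
    · rintro ⟨⟨j, a, b, c, d⟩, rfl⟩
      fin_cases j <;> simp [QF] <;> omega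
  · rintro ⟨j, a, b, c, d⟩
    fin_cases j <;> simp [ht1, hP, hN] <;> omega

lemma bpF3 : BP (fun x => QF x ∧ x 0 = x 1 ∧ x 1 = x 2) ht1 ((1 - X ^ 3) ^ 2) (1 + 2 * X ^ 3) := by
  refine ⟨Fin 3 × ℕ × ℕ, hP (fun j : Fin 3 => 3 * ((j.val + 1) / 2)) (hP (hN 3) (hN 3)),
    fun p => ![p.2.1 + p.2.2 + (p.1.val + 1) / 2, p.2.1 + p.2.2 + (p.1.val + 1) / 2,
      p.2.1 + p.2.2 + (p.1.val + 1) / 2, 3 * p.2.1 + p.1.val],
    fP (fF _) (fP fN3 fN3), ?_, ?_, ?_, ?_⟩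
  · rw [gP (fF _) (fP fN3 fN3), gP fN3 fN3, gF]
    simp only [Fin.sum_univ_succ]
    simp
    linear_combination (1 + 2 * X ^ 3) * ((gf (hN 3) * (1 - X ^ 3)) + 1) * gN3
  · rintro ⟨j, a, b⟩ ⟨j', a', b'⟩ h
    rw [vec_ext] at h
    fin_cases j <;> fin_cases j' <;> simp at h ⊢ <;> omega
  · intro x
    constructor
    · rintro ⟨⟨h1, h2, h3, h4, h5⟩, h6, h7⟩
      refine ⟨(⟨(x 3 % 3).toNat, by omega⟩, (x 3 / 3).toNat,
          (x 0 - x 3 / 3 - (x 3 % 3 + 1) / 2).toNat), ?_⟩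
      rw [vec_ext]
      have hh : x 3 % 3 = 0 ∨ x 3 % 3 = 1 ∨ x 3 % 3 = 2 := by omega
      rcases hh with h | h | h <;> simp [h] <;> omega
    · rintro ⟨⟨j, a, b⟩, rfl⟩
      fin_cases j <;> simp [QF] <;> omega
  · rintro ⟨j, a, b⟩
    fin_cases j <;> simp [ht1, hP, hN] <;> omega

lemma bpF01 : BP (fun x => QF x ∧ x 0 = x 1) ht1 ((1 - X ^ 2) ^ 2 * (1 - X))
    (1 + X + 2 * X ^ 2) := by
  refine ⟨Fin 4 × ℕ × ℕ × ℕ,
    hP (fun j : Fin 4 => min j.val 2) (hP (hN 2) (hP (hN 2) (hN 1))),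
    fun p => if p.1.val ≤ 1 then
        ![p.2.1, p.2.1, 2 * p.2.2.1 + p.1.val + p.2.2.2, 2 * p.2.2.1 + p.1.val]
      else ![p.2.1 + p.2.2.1 + 1, p.2.1 + p.2.2.1 + 1, p.2.2.2, p.2.2.2 + 2 * p.2.1 + p.1.val - 1],
    fP (fF _) (fP fN2 (fP fN2 fN1)), ?_, ?_, ?_, ?_⟩
  · rw [gP (fF _) (fP fN2 (fP fN2 fN1)), gP fN2 (fP fN2 fN1), gP fN2 fN1, gF]
    simp only [Fin.sum_univ_succ]
    simp
    linear_combination (1 + X + 2 * X ^ 2) * ((gf (hN 2) * (1 - X ^ 2)) + 1) * gN2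
      + (1 + X + 2 * X ^ 2) * (gf (hN 2) * (1 - X ^ 2)) ^ 2 * gN1
  · rintro ⟨j, a, b, c⟩ ⟨j', a', b', c'⟩ h
    rw [vec_ext] at h
    fin_cases j <;> fin_cases j' <;> simp at h ⊢ <;> omega
  · intro x
    constructor
    · rintro ⟨⟨h1, h2, h3, h4, h5⟩, h6⟩
      rcases le_or_gt (x 3) (x 2) with h | h
      · rcases Int.emod_two_eq_zero_or_one (x 3) with h' | h'
        · refine ⟨(0, (x 0).toNat, (x 3 / 2).toNat, (x 2 - x 3).toNat), ?_⟩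
          rw [vec_ext]; simp; omega
        · refine ⟨(1, (x 0).toNat, (x 3 / 2).toNat, (x 2 - x 3).toNat), ?_⟩
          rw [vec_ext]; simp; omega
      · rcases Int.emod_two_eq_zero_or_one (x 3 - x 2 - 1) with h' | h'
        · refine ⟨(2, ((x 3 - x 2 - 1) / 2).toNat, (x 0 - 1 - (x 3 - x 2 - 1) / 2).toNat,
            (x 2).toNat), ?_⟩
          rw [vec_ext]; simp; omega
        · refine ⟨(3, ((x 3 - x 2 - 1) / 2).toNat, (x 0 - 1 - (x 3 - x 2 - 1) / 2).toNat,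
            (x 2).toNat), ?_⟩
          rw [vec_ext]; simp; omega
    · rintro ⟨⟨j, a, b, c⟩, rfl⟩
      fin_cases j <;> simp [QF] <;> omega
  · rintro ⟨j, a, b, c⟩
    fin_cases j <;> simp [ht1, hP, hN] <;> omega

lemma bpF02 : BP (fun x => QF x ∧ x 0 = x 2) ht1 ((1 - X ^ 2) ^ 2 * (1 - X))
    (1 + X + 2 * X ^ 2) := by
  refine ⟨Fin 4 × ℕ × ℕ × ℕ,
    hP (fun j : Fin 4 => min j.val 2) (hP (hN 2) (hP (hN 2) (hN 1))),
    fun p => if p.1.val ≤ 1 then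
        ![p.2.1, 2 * p.2.2.1 + p.1.val + p.2.2.2, p.2.1, 2 * p.2.2.1 + p.1.val]
      else ![p.2.1 + p.2.2.1 + 1, p.2.2.2, p.2.1 + p.2.2.1 + 1, p.2.2.2 + 2 * p.2.1 + p.1.val - 1],
    fP (fF _) (fP fN2 (fP fN2 fN1)), ?_, ?_, ?_, ?_⟩
  · rw [gP (fF _) (fP fN2 (fP fN2 fN1)), gP fN2 (fP fN2 fN1), gP fN2 fN1, gF]
    simp only [Fin.sum_univ_succ]
    simp
    linear_combination (1 + X + 2 * X ^ 2) * ((gf (hN 2) * (1 - X ^ 2)) + 1) * gN2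
      + (1 + X + 2 * X ^ 2) * (gf (hN 2) * (1 - X ^ 2)) ^ 2 * gN1
  · rintro ⟨j, a, b, c⟩ ⟨j', a', b', c'⟩ h
    rw [vec_ext] at h
    fin_cases j <;> fin_cases j' <;> simp at h ⊢ <;> omega
  · intro x
    constructor
    · rintro ⟨⟨h1, h2, h3, h4, h5⟩, h6⟩
      rcases le_or_gt (x 3) (x 1) with h | h
      · rcases Int.emod_two_eq_zero_or_one (x 3) with h' | h'
        · refine ⟨(0, (x 0).toNat, (x 3 / 2).toNat, (x 1 - x 3).toNat), ?_⟩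
          rw [vec_ext]; simp; omega
        · refine ⟨(1, (x 0).toNat, (x 3 / 2).toNat, (x 1 - x 3).toNat), ?_⟩
          rw [vec_ext]; simp; omega
      · rcases Int.emod_two_eq_zero_or_one (x 3 - x 1 - 1) with h' | h'
        · refine ⟨(2, ((x 3 - x 1 - 1) / 2).toNat, (x 0 - 1 - (x 3 - x 1 - 1) / 2).toNat,
            (x 1).toNat), ?_⟩
          rw [vec_ext]; simp; omega
        · refine ⟨(3, ((x 3 - x 1 - 1) / 2).toNat, (x 0 - 1 - (x 3 - x 1 - 1) / 2).toNat,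
            (x 1).toNat), ?_⟩
          rw [vec_ext]; simp; omega
    · rintro ⟨⟨j, a, b, c⟩, rfl⟩
      fin_cases j <;> simp [QF] <;> omega
  · rintro ⟨j, a, b, c⟩
    fin_cases j <;> simp [ht1, hP, hN] <;> omega

lemma bpF12 : BP (fun x => QF x ∧ x 1 = x 2) ht1 ((1 - X ^ 2) ^ 2 * (1 - X))
    (1 + X + 2 * X ^ 2) := by
  refine ⟨Fin 4 × ℕ × ℕ × ℕ,
    hP (fun j : Fin 4 => min j.val 2) (hP (hN 2) (hP (hN 2) (hN 1))),
    fun p => if p.1.val ≤ 1 then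
        ![2 * p.2.2.1 + p.1.val + p.2.2.2, p.2.1, p.2.1, 2 * p.2.2.1 + p.1.val]
      else ![p.2.2.2, p.2.1 + p.2.2.1 + 1, p.2.1 + p.2.2.1 + 1, p.2.2.2 + 2 * p.2.1 + p.1.val - 1],
    fP (fF _) (fP fN2 (fP fN2 fN1)), ?_, ?_, ?_, ?_⟩
  · rw [gP (fF _) (fP fN2 (fP fN2 fN1)), gP fN2 (fP fN2 fN1), gP fN2 fN1, gF]
    simp only [Fin.sum_univ_succ]
    simp
    linear_combination (1 + X + 2 * X ^ 2) * ((gf (hN 2) * (1 - X ^ 2)) + 1) * gN2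
      + (1 + X + 2 * X ^ 2) * (gf (hN 2) * (1 - X ^ 2)) ^ 2 * gN1
  · rintro ⟨j, a, b, c⟩ ⟨j', a', b', c'⟩ h
    rw [vec_ext] at h
    fin_cases j <;> fin_cases j' <;> simp at h ⊢ <;> omega
  · intro x
    constructor
    · rintro ⟨⟨h1, h2, h3, h4, h5⟩, h6⟩
      rcases le_or_gt (x 3) (x 0) with h | h
      · rcases Int.emod_two_eq_zero_or_one (x 3) with h' | h'
        · refine ⟨(0, (x 1).toNat, (x 3 / 2).toNat, (x 0 - x 3).toNat), ?_⟩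
          rw [vec_ext]; simp; omega
        · refine ⟨(1, (x 1).toNat, (x 3 / 2).toNat, (x 0 - x 3).toNat), ?_⟩
          rw [vec_ext]; simp; omega
      · rcases Int.emod_two_eq_zero_or_one (x 3 - x 0 - 1) with h' | h'
        · refine ⟨(2, ((x 3 - x 0 - 1) / 2).toNat, (x 1 - 1 - (x 3 - x 0 - 1) / 2).toNat,
            (x 0).toNat), ?_⟩
          rw [vec_ext]; simp; omega
        · refine ⟨(3, ((x 3 - x 0 - 1) / 2).toNat, (x 1 - 1 - (x 3 - x 0 - 1) / 2).toNat,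
            (x 0).toNat), ?_⟩
          rw [vec_ext]; simp; omega
    · rintro ⟨⟨j, a, b, c⟩, rfl⟩
      fin_cases j <;> simp [QF] <;> omega
  · rintro ⟨j, a, b, c⟩
    fin_cases j <;> simp [ht1, hP, hN] <;> omega

end Pool.Agent.H.MP_769135_co
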