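import Mathlib

set_option autoImplicit false

namespace Pool.Agent.H.MP_769135_co

/-- the dicyclic group of order 12, as Z/3 extended by Z/4 -/
@[ext] structure G where
  a : Fin 3
  k : Fin 4
  deriving DecidableEq, Fintype

def tw (k : Fin 4) (b : Fin 3) : Fin 3 := if k.val % 2 = 0 then b else -b

instance : Mul G := ⟨fun g h => ⟨g.a + tw g.k h.a, g.k + h.k⟩⟩
instance : One G := ⟨⟨0, 0⟩⟩
instance : Inv G := ⟨fun g => ⟨-tw g.k g.a, -g.k⟩⟩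

instance : Group G := Group.ofLeftAxioms (by decide +kernel) (by decide +kernel) (by decide +kernel)

def A1 (g : G) : Matrix (Fin 3) (Fin 3) ℤ :=
  Matrix.of fun i j => if i = g.a + tw g.k j then 1 else 0

def T : Fin 4 → Matrix (Fin 4) (Fin 4) ℤ :=
  ![!![1,0,0,0; 0,1,0,0; 0,0,1,0; 0,0,0,1], !![0,0,-1,3; 0,0,0,1; 1,0,0,0; 0,1,0,0],
    !![-1,3,0,0; 0,1,0,0; 0,0,-1,3; 0,0,0,1], !![0,0,1,0; 0,0,0,1; -1,3,0,0; 0,1,0,0]]

def A3 (g : G) : Matrix (Fin 4) (Fin 4) ℤ := T g.k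

def J : Fin 4 → Matrix (Fin 2) (Fin 2) ℤ :=
  ![!![1,0;0,1], !![0,-1;1,0], !![-1,0;0,-1], !![0,1;-1,0]]

lemma A1_mul : ∀ g h : G, A1 (g * h) = A1 g * A1 h := by decide +kernel
lemma A1_one : A1 1 = 1 := by decide +kernel
lemma T_mul : ∀ k l : Fin 4, T (k + l) = T k * T l := by decide +kernel
lemma J_mul : ∀ k l : Fin 4, J (k + l) = J k * J l := by decide +kernel
lemma A3_mul (g h : G) : A3 (g * h) = A3 g * A3 h := T_mul g.k h.k
lemma A3_one : A3 1 = 1 := by decide +kernel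

def φ1 : G →* Matrix (Fin 3) (Fin 3) ℤ := ⟨⟨A1, A1_one⟩, A1_mul⟩
def φ3 : G →* Matrix (Fin 4) (Fin 4) ℤ := ⟨⟨A3, A3_one⟩, A3_mul⟩
def φ2 : G →* Matrix (Fin 2) (Fin 2) ℤ :=
  ⟨⟨fun g => J g.k, by decide +kernel⟩, fun g h => J_mul g.k h.k⟩

def IsChar (χ : G → ℤ) : Prop := ∃ V : FDRep ℂ G, ∀ g : G, V.character g = ((χ g : ℤ) : ℂ)

lemma IsChar.mat {n : ℕ} (φ : G →* Matrix (Fin n) (Fin n) ℤ) :
    IsChar (fun g => (φ g).trace) := by
  let ψ : Representation ℂ G (Fin n → ℂ) :=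
    (Matrix.toLinAlgEquiv' (R := ℂ) (n := Fin n)).toMonoidHom.comp
      ((RingHom.mapMatrix (Int.castRingHom ℂ)).toMonoidHom.comp φ)
  refine ⟨FDRep.of ψ, fun g => ?_⟩
  change LinearMap.trace ℂ _ (Matrix.toLin' ((φ g).map (Int.castRingHom ℂ))) = _
  rw [Matrix.trace_toLin'_eq]
  simp [Matrix.trace]

lemma IsChar.add {χ ψ : G → ℤ} (h1 : IsChar χ) (h2 : IsChar ψ) :
    IsChar (fun g => χ g + ψ g) := by
  obtain ⟨V, hV⟩ := h1
  obtain ⟨W, hW⟩ := h2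
  refine ⟨FDRep.of (Representation.prod V.ρ W.ρ), fun g => ?_⟩
  change LinearMap.trace ℂ _ ((V.ρ g).prodMap (W.ρ g)) = _
  rw [LinearMap.trace_prodMap']
  push_cast
  rw [← hV, ← hW]
  rfl

open CategoryTheory.MonoidalCategory in
lemma IsChar.mul {χ ψ : G → ℤ} (h1 : IsChar χ) (h2 : IsChar ψ) :
    IsChar (fun g => χ g * ψ g) := by
  obtain ⟨V, hV⟩ := h1
  obtain ⟨W, hW⟩ := h2
  refine ⟨V ⊗ W, fun g => ?_⟩
  rw [FDRep.char_tensor, Pi.mul_apply, hV, hW]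
  push_cast
  rfl

lemma IsChar.const (n : ℕ) : IsChar (fun _ => (n : ℤ)) := by
  have := IsChar.mat (n := n) 1
  simpa using this

def N (g : G) : ℤ := (φ1 g).trace
def R (g : G) : ℤ := (φ3 g).trace
def Ω (g : G) : ℤ := (φ2 g).trace

lemma cN : IsChar N := IsChar.mat φ1
lemma cR : IsChar R := IsChar.mat φ3
lemma cΩ : IsChar Ω := IsChar.mat φ2

/-- the coefficients of the equivariant series -/
def hh (i : ℕ) (g : G) : ℤ :=
  match i with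
  | 0 => ((1 : ℕ) : ℤ)
  | 1 => ((1 : ℕ) : ℤ) + N g + R g
  | 2 => ((2 : ℕ) : ℤ) * N g + ((2 : ℕ) : ℤ) + Ω g + R g * (((1 : ℕ) : ℤ) + N g)
  | 3 => ((2 : ℕ) : ℤ) + N g + R g * (((1 : ℕ) : ℤ) + ((3 : ℕ) : ℤ) * N g)
  | 4 => ((2 : ℕ) : ℤ) + R g * (((2 : ℕ) : ℤ) + ((3 : ℕ) : ℤ) * N g)
  | 5 => R g * (((4 : ℕ) : ℤ) + N g)
  | 6 => ((2 : ℕ) : ℤ) * R g
  | _ + 7 => ((0 : ℕ) : ℤ)

lemma hh_char (i : ℕ) : IsChar (hh i) := by
  have c := IsChar.const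
  match i with
  | 0 => exact c 1
  | 1 => exact ((c 1).add cN).add cR
  | 2 => exact ((((c 2).mul cN).add (c 2)).add cΩ).add (cR.mul ((c 1).add cN))
  | 3 => exact ((c 2).add cN).add (cR.mul ((c 1).add ((c 3).mul cN)))
  | 4 => exact (c 2).add (cR.mul ((c 2).add ((c 3).mul cN)))
  | 5 => exact cR.mul ((c 4).add cN)
  | 6 => exact (c 2).mul cR
  | _ + 7 => exact c 0

lemma perm_ineq (X : Type) [Finite X] [MulAction G X] :
    Nat.card {x : X // (⟨0, 1⟩ : G) • x = x} + Nat.card {x : X // (⟨1, 1⟩ : G) • x = x}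
      + Nat.card {x : X // (⟨2, 1⟩ : G) • x = x}
      ≤ Nat.card {x : X // (⟨0, 2⟩ : G) • x = x} + 2 * Nat.card {x : X // (⟨1, 2⟩ : G) • x = x} := by
  classical
  have := Fintype.ofFinite X
  simp only [Nat.card_eq_fintype_card, Fintype.card_subtype, Finset.card_filter,
    Finset.mul_sum, ← Finset.sum_add_distrib]
  refine Finset.sum_le_sum fun x _ => ?_
  have key : ∀ a b : G, a • x = x → b • x = x → (a * b) • x = x := by
    intro a b ha hb; rw [mul_smul, hb, ha]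
  have u0 : (⟨0, 1⟩ : G) • x = x → (⟨0, 2⟩ : G) • x = x := fun h => key _ _ h h
  have u1 : (⟨1, 1⟩ : G) • x = x → (⟨0, 2⟩ : G) • x = x := fun h => key _ _ h h
  have u2 : (⟨2, 1⟩ : G) • x = x → (⟨0, 2⟩ : G) • x = x := fun h => key _ _ h h
  have v1 : (⟨0, 1⟩ : G) • x = x → (⟨1, 1⟩ : G) • x = x → (⟨1, 2⟩ : G) • x = x :=
    fun h h' => key _ _ h' h
  have v2 : (⟨0, 1⟩ : G) • x = x → (⟨2, 1⟩ : G) • x = x → (⟨1, 2⟩ : G) • x = x :=
    fun h h' => key _ _ h h'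
  have v3 : (⟨1, 1⟩ : G) • x = x → (⟨2, 1⟩ : G) • x = x → (⟨1, 2⟩ : G) • x = x :=
    fun h h' => key _ _ h' h
  by_cases a0 : (⟨0, 1⟩ : G) • x = x <;> by_cases a1 : (⟨1, 1⟩ : G) • x = x <;>
    by_cases a2 : (⟨2, 1⟩ : G) • x = x <;> simp_all

lemma not_perm : ¬ ∃ (X : Type) (_ : Finite X) (_ : MulAction G X), ∀ g : G,
      ∑ i ∈ Finset.range (11 + 1), ((hh i g : ℤ) : ℂ) =
        ((Nat.card {x : X // g • x = x} : ℕ) : ℂ) := by
  rintro ⟨X, _, _, h⟩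
  have hz : ∀ g : G, ∑ i ∈ Finset.range (11 + 1), hh i g =
      ((Nat.card {x : X // g • x = x} : ℕ) : ℤ) := by
    intro g
    have := h g
    exact_mod_cast this
  have e1 : ∑ i ∈ Finset.range (11 + 1), hh i ⟨0, 1⟩ = 12 := by decide +kernel
  have e2 : ∑ i ∈ Finset.range (11 + 1), hh i ⟨1, 1⟩ = 12 := by decide +kernel
  have e3 : ∑ i ∈ Finset.range (11 + 1), hh i ⟨2, 1⟩ = 12 := by decide +kernel
  have e4 : ∑ i ∈ Finset.range (11 + 1), hh i ⟨0, 2⟩ = 18 := by decide +kernel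
  have e5 : ∑ i ∈ Finset.range (11 + 1), hh i ⟨1, 2⟩ = 6 := by decide +kernel
  have := perm_ineq X
  rw [hz] at e1 e2 e3 e4 e5
  omega

end Pool.Agent.H.MP_769135_co
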