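import Mathlib

set_option autoImplicit false
open scoped Pointwise

namespace Pool.Agent.H.MP_769135_co

/-- vertices of the join of a triangular prism, a reflexive tetrahedron and two segments -/
def V : Fin 14 → Fin 11 → ℤ :=
  ![![0,0,0,0,0,0,0,0,0,0,0], ![0,0,0,0,6,-1,-3,0,0,0,0], ![0,0,0,0,0,1,0,0,0,0,0],
    ![0,0,0,0,0,0,1,0,0,0,0],
    ![1,0,0,0,0,0,0,0,0,0,0], ![1,0,0,1,0,0,0,0,0,0,0], ![0,1,0,0,0,0,0,0,0,0,0],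
    ![0,1,0,1,0,0,0,0,0,0,0], ![0,0,1,0,0,0,0,0,0,0,0], ![0,0,1,1,0,0,0,0,0,0,0],
    ![0,0,0,0,0,0,0,0,1,0,0], ![0,0,0,0,0,0,0,3,1,0,0], ![0,0,0,0,0,0,0,0,0,0,1],
    ![0,0,0,0,0,0,0,0,0,3,1]]

def S : Finset (Fin 11 → ℤ) := Finset.univ.image V

def SR : Set (Fin 11 → ℝ) := (fun w : Fin 11 → ℤ => fun k => (w k : ℝ)) '' (S : Set (Fin 11 → ℤ))

lemma V_mem (i : Fin 14) : (fun k => (V i k : ℝ)) ∈ SR :=
  ⟨V i, by simp [S], rfl⟩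

/-- the facet inequalities of the cone -/
def Q (m : ℝ) (u : Fin 11 → ℝ) : Prop :=
  0 ≤ u 0 ∧ 0 ≤ u 1 ∧ 0 ≤ u 2 ∧ 0 ≤ u 3 ∧ u 3 ≤ u 0 + u 1 + u 2 ∧
  0 ≤ u 4 ∧ 0 ≤ 6 * u 5 + u 4 ∧ 0 ≤ 2 * u 6 + u 4 ∧
  6 * u 5 + 6 * u 6 + 5 * u 4 ≤ 6 * (m - (u 0 + u 1 + u 2) - (u 8 + u 10)) ∧
  0 ≤ u 7 ∧ u 7 ≤ 3 * u 8 ∧ 0 ≤ u 9 ∧ u 9 ≤ 3 * u 10

def QZ (m : ℤ) (u : Fin 11 → ℤ) : Prop :=
  0 ≤ u 0 ∧ 0 ≤ u 1 ∧ 0 ≤ u 2 ∧ 0 ≤ u 3 ∧ u 3 ≤ u 0 + u 1 + u 2 ∧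
  0 ≤ u 4 ∧ 0 ≤ 6 * u 5 + u 4 ∧ 0 ≤ 2 * u 6 + u 4 ∧
  6 * u 5 + 6 * u 6 + 5 * u 4 ≤ 6 * (m - (u 0 + u 1 + u 2) - (u 8 + u 10)) ∧
  0 ≤ u 7 ∧ u 7 ≤ 3 * u 8 ∧ 0 ≤ u 9 ∧ u 9 ≤ 3 * u 10

lemma Q_cast (m : ℤ) (v : Fin 11 → ℤ) : Q m (fun k => (v k : ℝ)) ↔ QZ m v := by
  simp only [Q, QZ]
  norm_cast

lemma Q_smul {m : ℝ} {u : Fin 11 → ℝ} (hu : Q m u) {c : ℝ} (hc : 0 ≤ c) : Q (c * m) (c • u) := by
  obtain ⟨h1, h2, h3, h4, h5, h6, h7, h8, h9, h10, h11, h12, h13⟩ := hu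
  simp only [Q, Pi.smul_apply, smul_eq_mul]
  have a1 := mul_le_mul_of_nonneg_left h1 hc
  have a2 := mul_le_mul_of_nonneg_left h2 hc
  have a3 := mul_le_mul_of_nonneg_left h3 hc
  have a4 := mul_le_mul_of_nonneg_left h4 hc
  have a5 := mul_le_mul_of_nonneg_left h5 hc
  have a6 := mul_le_mul_of_nonneg_left h6 hc
  have a7 := mul_le_mul_of_nonneg_left h7 hc
  have a8 := mul_le_mul_of_nonneg_left h8 hc
  have a9 := mul_le_mul_of_nonneg_left h9 hc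
  have a10 := mul_le_mul_of_nonneg_left h10 hc
  have a11 := mul_le_mul_of_nonneg_left h11 hc
  have a12 := mul_le_mul_of_nonneg_left h12 hc
  have a13 := mul_le_mul_of_nonneg_left h13 hc
  refine ⟨?_, ?_, ?_, ?_, ?_, ?_, ?_, ?_, ?_, ?_, ?_, ?_, ?_⟩ <;> linarith

lemma Q_add {m n : ℝ} {u w : Fin 11 → ℝ} (hu : Q m u) (hw : Q n w) : Q (m + n) (u + w) := by
  obtain ⟨h1, h2, h3, h4, h5, h6, h7, h8, h9, h10, h11, h12, h13⟩ := hu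
  obtain ⟨g1, g2, g3, g4, g5, g6, g7, g8, g9, g10, g11, g12, g13⟩ := hw
  simp only [Q, Pi.add_apply]
  refine ⟨?_, ?_, ?_, ?_, ?_, ?_, ?_, ?_, ?_, ?_, ?_, ?_, ?_⟩ <;> linarith

lemma conv_sub {u : Fin 11 → ℝ} (hu : u ∈ convexHull ℝ SR) : Q 1 u := by
  have : convexHull ℝ SR ⊆ {u | Q 1 u} := by
    refine convexHull_min ?_ ?_
    · rintro _ ⟨w, hw, rfl⟩
      simp only [S, Finset.coe_image, Finset.coe_univ, Set.image_univ, Set.mem_range] at hw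
      obtain ⟨i, rfl⟩ := hw
      have := (Q_cast 1 (V i)).2 (by fin_cases i <;> simp [QZ, V])
      simpa using this
    · intro x hx y hy a b ha hb hab
      have := Q_add (Q_smul hx ha) (Q_smul hy hb)
      rw [mul_one, mul_one, hab] at this
      exact this
  exact this hu

noncomputable def lam (u : Fin 11 → ℝ) (y0 y1 : ℝ) : Fin 14 → ℝ :=
  ![1 - (u 0 + u 1 + u 2) - (u 8 + u 10) - u 5 - u 6 - 5 / 6 * u 4, u 4 / 6, u 5 + u 4 / 6,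
    u 6 + u 4 / 2,
    u 0 - y0, y0, u 1 - y1, y1, u 2 - (u 3 - y0 - y1), u 3 - y0 - y1,
    u 8 - u 7 / 3, u 7 / 3, u 10 - u 9 / 3, u 9 / 3]

lemma sum_lam (u : Fin 11 → ℝ) (y0 y1 : ℝ) :
    ∑ i, lam u y0 y1 i • (fun k => (V i k : ℝ)) = u := by
  ext k
  simp only [Finset.sum_apply, Pi.smul_apply, smul_eq_mul, Fin.sum_univ_succ]
  fin_cases k <;> simp [lam, V] <;> ring

lemma split3 {a b c y : ℝ} (ha : 0 ≤ a) (hb : 0 ≤ b) (hc : 0 ≤ c) (h0 : 0 ≤ y)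
    (h1 : y ≤ a + b + c) : ∃ y0 y1 : ℝ, 0 ≤ y0 ∧ y0 ≤ a ∧ 0 ≤ y1 ∧ y1 ≤ b ∧
      0 ≤ y - y0 - y1 ∧ y - y0 - y1 ≤ c := by
  rcases le_total y a with h | h
  · exact ⟨y, 0, h0, h, le_rfl, hb, by linarith, by linarith⟩
  · rcases le_total y (a + b) with h' | h'
    · exact ⟨a, y - a, ha, le_rfl, by linarith, by linarith, by linarith, by linarith⟩
    · exact ⟨a, b, ha, le_rfl, hb, le_rfl, by linarith, by linarith⟩

lemma sub_conv {u : Fin 11 → ℝ} (hu : Q 1 u) : u ∈ convexHull ℝ SR := by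
  obtain ⟨h1, h2, h3, h4, h5, h6, h7, h8, h9, h10, h11, h12, h13⟩ := hu
  obtain ⟨y0, y1, a1, a2, a3, a4, a5, a6⟩ := split3 h1 h2 h3 h4 h5
  rw [← sum_lam u y0 y1]
  refine (convex_convexHull ℝ SR).sum_mem ?_ ?_ ?_
  · intro i _
    fin_cases i <;> simp [lam] <;> linarith
  · simp only [Fin.sum_univ_succ]
    simp [lam]
    linarith
  · intro i _
    exact subset_convexHull ℝ SR (V_mem i)

lemma interior_ne : (interior (convexHull ℝ SR)).Nonempty := by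
  let U : Set (Fin 11 → ℝ) := {u | 0 < u 0 ∧ 0 < u 1 ∧ 0 < u 2 ∧ 0 < u 3 ∧ u 3 < u 0 + u 1 + u 2 ∧
    0 < u 4 ∧ 0 < 6 * u 5 + u 4 ∧ 0 < 2 * u 6 + u 4 ∧
    6 * u 5 + 6 * u 6 + 5 * u 4 < 6 * (1 - (u 0 + u 1 + u 2) - (u 8 + u 10)) ∧
    0 < u 7 ∧ u 7 < 3 * u 8 ∧ 0 < u 9 ∧ u 9 < 3 * u 10}
  have hU : IsOpen U := by
    simp only [U, Set.ofPred_and]
    repeat' apply IsOpen.inter
    all_goals exact isOpen_lt (by fun_prop) (by fun_prop)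
  have hsub : U ⊆ convexHull ℝ SR := by
    rintro u ⟨h1, h2, h3, h4, h5, h6, h7, h8, h9, h10, h11, h12, h13⟩
    exact sub_conv ⟨h1.le, h2.le, h3.le, h4.le, h5.le, h6.le, h7.le, h8.le, h9.le, h10.le, h11.le,
      h12.le, h13.le⟩
  refine ⟨fun _ => 1 / 100, interior_maximal hsub hU ?_⟩
  simp only [U, Set.mem_ofPred_eq]
  norm_num

lemma mem_dilate (m : ℕ) (v : Fin 11 → ℤ) :
    (fun k => (v k : ℝ)) ∈ (m : ℝ) • convexHull ℝ SR ↔ QZ m v := by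
  constructor
  · rintro ⟨u, hu, h⟩
    have hq := conv_sub hu
    refine (Q_cast m v).1 ?_
    rw [← h]
    have := Q_smul hq (Nat.cast_nonneg (α := ℝ) m)
    rw [mul_one] at this
    exact_mod_cast this
  · intro hq
    rcases Nat.eq_zero_or_pos m with rfl | hm
    · refine ⟨_, subset_convexHull ℝ SR (V_mem 0), ?_⟩
      obtain ⟨h1, h2, h3, h4, h5, h6, h7, h8, h9, h10, h11, h12, h13⟩ := hq
      have : v = 0 := by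
        ext k
        fin_cases k <;> simp <;> omega
      subst this
      ext k; simp
    · have hm' : (0 : ℝ) < m := by exact_mod_cast hm
      refine ⟨(m : ℝ)⁻¹ • (fun k => (v k : ℝ)), sub_conv ?_, ?_⟩
      · have := Q_smul ((Q_cast m v).2 hq) (c := (m : ℝ)⁻¹) (by positivity)
        rw [Int.cast_natCast, inv_mul_cancel₀ hm'.ne'] at this
        exact this
      · simp only [smul_smul]
        rw [mul_inv_cancel₀ hm'.ne', one_smul]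

end Pool.Agent.H.MP_769135_co
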