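import Pool.Agent.H.MP_769135_co.Grp
import Pool.Agent.H.MP_769135_co.Poly
import Pool.Agent.H.MP_769135_co.Count

set_option autoImplicit false
open scoped Pointwise

namespace Pool.Agent.H.MP_769135_co

open Sum in
def f : Fin 11 ≃ Fin 3 ⊕ (Fin 4 ⊕ Fin 4) where
  toFun := ![inl 0, inl 1, inl 2, inr (inl 0), inr (inl 1), inr (inl 2), inr (inl 3),
    inr (inr 0), inr (inr 1), inr (inr 2), inr (inr 3)]
  invFun := Sum.elim ![0, 1, 2] (Sum.elim ![3, 4, 5, 6] ![7, 8, 9, 10])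
  left_inv := by decide
  right_inv := by decide

def A (g : G) : Matrix (Fin 11) (Fin 11) ℤ :=
  (Matrix.fromBlocks (A1 g) 0 0 (Matrix.fromBlocks 1 0 0 (A3 g))).submatrix f f

lemma A_mul (g h : G) : A (g * h) = A g * A h := by
  simp only [A, Matrix.submatrix_mul_equiv, Matrix.fromBlocks_multiply, A1_mul, A3_mul]
  simp

lemma A_one : A 1 = 1 := by
  simp [A, A1_one, A3_one]

def L (g : G) : (Fin 11 → ℤ) ≃ₗ[ℤ] (Fin 11 → ℤ) :=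
  LinearEquiv.ofLinearMap (Matrix.toLin' (A g)) (Matrix.toLin' (A g⁻¹))
    (by rw [← Matrix.toLin'_mul, ← A_mul, mul_inv_cancel, A_one, Matrix.toLin'_one])
    (by rw [← Matrix.toLin'_mul, ← A_mul, inv_mul_cancel, A_one, Matrix.toLin'_one])

def ρ : G →* ((Fin 11 → ℤ) ≃ᵃ[ℤ] (Fin 11 → ℤ)) :=
  MonoidHom.mk' (fun g => (L g).toAffineEquiv) (by
    intro g h
    ext v i
    simp [L, A_mul])

lemma ρ_apply (g : G) (v : Fin 11 → ℤ) : ρ g v = (A g).mulVec v := rfl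
lemma ρ_lin (g : G) (v : Fin 11 → ℤ) : (ρ g).linear v = (A g).mulVec v := rfl
lemma ρ_mat (g : G) :
    LinearMap.toMatrix' ((ρ g).linear : (Fin 11 → ℤ) →ₗ[ℤ] (Fin 11 → ℤ)) = A g := by
  have : ((ρ g).linear : (Fin 11 → ℤ) →ₗ[ℤ] (Fin 11 → ℤ)) = Matrix.toLin' (A g) := rfl
  rw [this, LinearMap.toMatrix'_toLin']

lemma det_gen0 {K : Type} [CommRing K] (t : K) {ι : Type} [Fintype ι] [DecidableEq ι] (e : ι ≃ Fin 3 ⊕ (Fin 4 ⊕ Fin 4))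
    (B : Matrix (Fin 3) (Fin 3) K) (D : Matrix (Fin 4) (Fin 4) K) :
    Matrix.det (1 - t •
      ((Matrix.fromBlocks B 0 0 (Matrix.fromBlocks 1 0 0 D)).submatrix e e))
    = Matrix.det (1 - t • B) *
      ((1 - t) ^ 4 * Matrix.det (1 - t • D)) := by
  have : (1 - t •
      ((Matrix.fromBlocks B 0 0 (Matrix.fromBlocks 1 0 0 D)).submatrix e e))
      = (Matrix.fromBlocks (1 - t • B) 0 0
      (Matrix.fromBlocks ((1 - t) • (1 : Matrix (Fin 4) (Fin 4) K)) 0 0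
        (1 - t • D))).submatrix e e := by
    ext1 i j
    simp only [Matrix.sub_apply, Matrix.smul_apply, Matrix.submatrix_apply,
      Matrix.one_apply, ← e.injective.eq_iff (a := i) (b := j)]
    generalize e i = a
    generalize e j = b
    rcases a with a | a | a <;> rcases b with b | b | b <;> simp [Matrix.one_apply]
    split_ifs <;> simp
  rw [this, Matrix.det_submatrix_equiv_self, Matrix.det_fromBlocks_zero₂₁,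
    Matrix.det_fromBlocks_zero₂₁, Matrix.det_smul]
  simp

open Polynomial in
lemma det_gen {ι : Type} [Fintype ι] [DecidableEq ι] (e : ι ≃ Fin 3 ⊕ (Fin 4 ⊕ Fin 4))
    (B : Matrix (Fin 3) (Fin 3) ℤ) (D : Matrix (Fin 4) (Fin 4) ℤ) :
    Matrix.det (1 - (X : ℤ[X]) •
      ((Matrix.fromBlocks B 0 0 (Matrix.fromBlocks 1 0 0 D)).submatrix e e).map C)
    = Matrix.det (1 - (X : ℤ[X]) • B.map C) *
      ((1 - X) ^ 4 * Matrix.det (1 - (X : ℤ[X]) • D.map C)) := by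
  rw [← det_gen0 (X : ℤ[X]) e]
  congr 3
  ext1 i j
  simp only [Matrix.map_apply, Matrix.submatrix_apply]
  generalize e i = a
  generalize e j = b
  rcases a with a | a | a <;> rcases b with b | b | b <;> simp [Matrix.one_apply]

open Polynomial in
lemma det_A (g : G) : Matrix.det (1 - (X : ℤ[X]) • (A g).map C)
    = Matrix.det (1 - (X : ℤ[X]) • (A1 g).map C) *
      ((1 - X) ^ 4 * Matrix.det (1 - (X : ℤ[X]) • (A3 g).map C)) := det_gen f _ _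

lemma det4 {K : Type} [CommRing K] (M : Matrix (Fin 4) (Fin 4) K) : M.det =
    M 0 0 * (M 1 1 * M 2 2 * M 3 3 - M 1 1 * M 2 3 * M 3 2 - M 1 2 * M 2 1 * M 3 3
      + M 1 2 * M 2 3 * M 3 1 + M 1 3 * M 2 1 * M 3 2 - M 1 3 * M 2 2 * M 3 1)
    - M 0 1 * (M 1 0 * M 2 2 * M 3 3 - M 1 0 * M 2 3 * M 3 2 - M 1 2 * M 2 0 * M 3 3
      + M 1 2 * M 2 3 * M 3 0 + M 1 3 * M 2 0 * M 3 2 - M 1 3 * M 2 2 * M 3 0)
    + M 0 2 * (M 1 0 * M 2 1 * M 3 3 - M 1 0 * M 2 3 * M 3 1 - M 1 1 * M 2 0 * M 3 3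
      + M 1 1 * M 2 3 * M 3 0 + M 1 3 * M 2 0 * M 3 1 - M 1 3 * M 2 1 * M 3 0)
    - M 0 3 * (M 1 0 * M 2 1 * M 3 2 - M 1 0 * M 2 2 * M 3 1 - M 1 1 * M 2 0 * M 3 2
      + M 1 1 * M 2 2 * M 3 0 + M 1 2 * M 2 0 * M 3 1 - M 1 2 * M 2 1 * M 3 0) := by
  rw [Matrix.det_succ_row_zero, Fin.sum_univ_four]
  simp only [Matrix.det_fin_three, Matrix.submatrix_apply]
  simp [Fin.succAbove]
  ring

lemma A_mulVec (g : G) (v : Fin 11 → ℤ) : (A g).mulVec v =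
    ![(A1 g).mulVec ![v 0, v 1, v 2] 0, (A1 g).mulVec ![v 0, v 1, v 2] 1,
      (A1 g).mulVec ![v 0, v 1, v 2] 2, v 3, v 4, v 5, v 6,
      (A3 g).mulVec (p3 v) 0, (A3 g).mulVec (p3 v) 1, (A3 g).mulVec (p3 v) 2,
      (A3 g).mulVec (p3 v) 3] := by
  ext i
  fin_cases i <;>
    simp [A, f, Matrix.mulVec, dotProduct, Fin.sum_univ_succ, p3, Matrix.one_apply]

lemma vec11 {x y : Fin 11 → ℤ} : x = y ↔ x 0 = y 0 ∧ x 1 = y 1 ∧ x 2 = y 2 ∧ x 3 = y 3 ∧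
    x 4 = y 4 ∧ x 5 = y 5 ∧ x 6 = y 6 ∧ x 7 = y 7 ∧ x 8 = y 8 ∧ x 9 = y 9 ∧ x 10 = y 10 := by
  constructor
  · rintro rfl; simp
  · rintro ⟨h0, h1, h2, h3, h4, h5, h6, h7, h8, h9, h10⟩
    ext i; fin_cases i <;> assumption

noncomputable def E (g : G) : PowerSeries ℤ :=
  PowerSeries.mk fun m : ℕ => ((Set.ncard {v : Fin 11 → ℤ | QZ m v ∧ (A g).mulVec v = v} : ℕ) : ℤ)

open Polynomial in
noncomputable def DG {ι : Type} [Fintype ι] [DecidableEq ι] (M : Matrix ι ι ℤ) : ℤ[X] :=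
  (1 - X) * Matrix.det (1 - (X : ℤ[X]) • M.map C)

open Polynomial in
lemma DG_def {ι : Type} [Fintype ι] [DecidableEq ι] (M : Matrix ι ι ℤ) :
    DG M = (1 - X) * Matrix.det (1 - (X : ℤ[X]) • M.map C) := rfl

open Polynomial in
lemma DD_eq (g : G) : DG (A g) = (1 - X) * (Matrix.det (1 - (X : ℤ[X]) • (A1 g).map C) *
      ((1 - X) ^ 4 * Matrix.det (1 - (X : ℤ[X]) • (A3 g).map C))) := by
  rw [DG_def, det_A]

open PowerSeries in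
noncomputable def HP (g : G) : PowerSeries ℤ :=
  C (hh 0 g) + C (hh 1 g) * X + C (hh 2 g) * X ^ 2 + C (hh 3 g) * X ^ 3 + C (hh 4 g) * X ^ 4
    + C (hh 5 g) * X ^ 5 + C (hh 6 g) * X ^ 6

lemma nz1 : (1 + PowerSeries.X : PowerSeries ℤ) ≠ 0 := by
  intro h
  have := congrArg PowerSeries.constantCoeff h
  simp at this

lemma nz2 : (1 + PowerSeries.X + PowerSeries.X ^ 2 : PowerSeries ℤ) ≠ 0 := by
  intro h
  have := congrArg PowerSeries.constantCoeff h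
  simp at this

lemma a1_00 : A1 (⟨0, 0⟩ : G) = !![1, 0, 0; 0, 1, 0; 0, 0, 1] := by decide +kernel

lemma mv00 (v : Fin 11 → ℤ) : (A (⟨0, 0⟩ : G)).mulVec v =
    ![v 0, v 1, v 2, v 3, v 4, v 5, v 6, v 7, v 8, v 9, v 10] := by
  rw [A_mulVec, vec11, a1_00]
  simp [A3, T, p3, Matrix.mulVec, dotProduct, Fin.sum_univ_succ]
  try omega

open Polynomial in
lemma dd00 : DG (A (⟨0, 0⟩ : G)) = (1 - X) * (((1 - X) ^ 3) * ((1 - X) ^ 4 * ((1 - X) ^ 4))) := by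
  have h1 : Matrix.det (1 - (X : ℤ[X]) • (A1 (⟨0, 0⟩ : G)).map C) = (1 - X) ^ 3 := by
    rw [a1_00]
    simp [Matrix.det_fin_three]
    try ring
  have h3 : Matrix.det (1 - (X : ℤ[X]) • (A3 (⟨0, 0⟩ : G)).map C) = (1 - X) ^ 4 := by
    simp [det4, A3, T]
    try ring
  rw [DD_eq, h1, h3]

open PowerSeries in
lemma ser00 : (DG (A (⟨0, 0⟩ : G)) : PowerSeries ℤ) * E (⟨0, 0⟩ : G) = HP (⟨0, 0⟩ : G) := by
  have h := combine bpF0 bpC bpW0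
  have hE : E (⟨0, 0⟩ : G) = PowerSeries.mk fun m : ℕ =>
      ((Set.ncard {v : Fin 11 → ℤ | QF (p1 v) ∧ QC (p2 m v) ∧
        QW (p3 v)} : ℕ) : ℤ) := by
    ext m
    simp only [E, coeff_mk]
    congr 2
    ext v
    simp only [Set.mem_ofPred_eq, mv00]
    rw [vec11]
    simp [QZ, QF, QC, QW, p1, p2, p3, ht1, ht3]
    omega
  have hv : hh 0 (⟨0, 0⟩ : G) = 1 ∧ hh 1 (⟨0, 0⟩ : G) = 8 ∧ hh 2 (⟨0, 0⟩ : G) = 26 ∧ hh 3 (⟨0, 0⟩ : G) = 45 ∧ hh 4 (⟨0, 0⟩ : G) = 46 ∧ hh 5 (⟨0, 0⟩ : G) = 28 ∧ hh 6 (⟨0, 0⟩ : G) = 8 := by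
    decide +kernel
  obtain ⟨e0, e1, e2, e3, e4, e5, e6⟩ := hv
  rw [← hE] at h
  rw [dd00, HP, e0, e1, e2, e3, e4, e5, e6]
  simp only [map_ofNat, map_one, map_zero]
  push_cast
  linear_combination h

lemma a1_01 : A1 (⟨0, 1⟩ : G) = !![1, 0, 0; 0, 0, 1; 0, 1, 0] := by decide +kernel

lemma mv01 (v : Fin 11 → ℤ) : (A (⟨0, 1⟩ : G)).mulVec v =
    ![v 0, v 2, v 1, v 3, v 4, v 5, v 6, 3 * v 10 - v 9, v 10, v 7, v 8] := by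
  rw [A_mulVec, vec11, a1_01]
  simp [A3, T, p3, Matrix.mulVec, dotProduct, Fin.sum_univ_succ]
  try omega

open Polynomial in
lemma dd01 : DG (A (⟨0, 1⟩ : G)) = (1 - X) * (((1 - X ^ 2) * (1 - X)) * ((1 - X) ^ 4 * (1 - X ^ 4))) := by
  have h1 : Matrix.det (1 - (X : ℤ[X]) • (A1 (⟨0, 1⟩ : G)).map C) = (1 - X ^ 2) * (1 - X) := by
    rw [a1_01]
    simp [Matrix.det_fin_three]
    try ring
  have h3 : Matrix.det (1 - (X : ℤ[X]) • (A3 (⟨0, 1⟩ : G)).map C) = 1 - X ^ 4 := by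
    simp [det4, A3, T]
    try ring
  rw [DD_eq, h1, h3]

open PowerSeries in
lemma ser01 : (DG (A (⟨0, 1⟩ : G)) : PowerSeries ℤ) * E (⟨0, 1⟩ : G) = HP (⟨0, 1⟩ : G) := by
  have h := combine bpF12 bpC bpW1
  have hE : E (⟨0, 1⟩ : G) = PowerSeries.mk fun m : ℕ =>
      ((Set.ncard {v : Fin 11 → ℤ | (QF (p1 v) ∧ p1 v 1 = p1 v 2) ∧ QC (p2 m v) ∧
        (QW (p3 v) ∧ 2 * p3 v 0 = 3 * p3 v 1 ∧ p3 v 0 = p3 v 2 ∧ p3 v 1 = p3 v 3)} : ℕ) : ℤ) := by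
    ext m
    simp only [E, coeff_mk]
    congr 2
    ext v
    simp only [Set.mem_ofPred_eq, mv01]
    rw [vec11]
    simp [QZ, QF, QC, QW, p1, p2, p3, ht1, ht3]
    omega
  have hv : hh 0 (⟨0, 1⟩ : G) = 1 ∧ hh 1 (⟨0, 1⟩ : G) = 2 ∧ hh 2 (⟨0, 1⟩ : G) = 4 ∧ hh 3 (⟨0, 1⟩ : G) = 3 ∧ hh 4 (⟨0, 1⟩ : G) = 2 ∧ hh 5 (⟨0, 1⟩ : G) = 0 ∧ hh 6 (⟨0, 1⟩ : G) = 0 := by
    decide +kernel
  obtain ⟨e0, e1, e2, e3, e4, e5, e6⟩ := hv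
  rw [← hE] at h
  rw [dd01, HP, e0, e1, e2, e3, e4, e5, e6]
  simp only [map_ofNat, map_one, map_zero]
  push_cast
  apply mul_left_cancel₀ nz1
  linear_combination h

lemma a1_02 : A1 (⟨0, 2⟩ : G) = !![1, 0, 0; 0, 1, 0; 0, 0, 1] := by decide +kernel

lemma mv02 (v : Fin 11 → ℤ) : (A (⟨0, 2⟩ : G)).mulVec v =
    ![v 0, v 1, v 2, v 3, v 4, v 5, v 6, 3 * v 8 - v 7, v 8, 3 * v 10 - v 9, v 10] := by
  rw [A_mulVec, vec11, a1_02]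
  simp [A3, T, p3, Matrix.mulVec, dotProduct, Fin.sum_univ_succ]
  try omega

open Polynomial in
lemma dd02 : DG (A (⟨0, 2⟩ : G)) = (1 - X) * (((1 - X) ^ 3) * ((1 - X) ^ 4 * ((1 - X ^ 2) ^ 2))) := by
  have h1 : Matrix.det (1 - (X : ℤ[X]) • (A1 (⟨0, 2⟩ : G)).map C) = (1 - X) ^ 3 := by
    rw [a1_02]
    simp [Matrix.det_fin_three]
    try ring
  have h3 : Matrix.det (1 - (X : ℤ[X]) • (A3 (⟨0, 2⟩ : G)).map C) = (1 - X ^ 2) ^ 2 := by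
    simp [det4, A3, T]
    try ring
  rw [DD_eq, h1, h3]

open PowerSeries in
lemma ser02 : (DG (A (⟨0, 2⟩ : G)) : PowerSeries ℤ) * E (⟨0, 2⟩ : G) = HP (⟨0, 2⟩ : G) := by
  have h := combine bpF0 bpC bpW2
  have hE : E (⟨0, 2⟩ : G) = PowerSeries.mk fun m : ℕ =>
      ((Set.ncard {v : Fin 11 → ℤ | QF (p1 v) ∧ QC (p2 m v) ∧
        (QW (p3 v) ∧ 2 * p3 v 0 = 3 * p3 v 1 ∧ 2 * p3 v 2 = 3 * p3 v 3)} : ℕ) : ℤ) := by
    ext m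
    simp only [E, coeff_mk]
    congr 2
    ext v
    simp only [Set.mem_ofPred_eq, mv02]
    rw [vec11]
    simp [QZ, QF, QC, QW, p1, p2, p3, ht1, ht3]
    omega
  have hv : hh 0 (⟨0, 2⟩ : G) = 1 ∧ hh 1 (⟨0, 2⟩ : G) = 4 ∧ hh 2 (⟨0, 2⟩ : G) = 6 ∧ hh 3 (⟨0, 2⟩ : G) = 5 ∧ hh 4 (⟨0, 2⟩ : G) = 2 ∧ hh 5 (⟨0, 2⟩ : G) = 0 ∧ hh 6 (⟨0, 2⟩ : G) = 0 := by
    decide +kernel
  obtain ⟨e0, e1, e2, e3, e4, e5, e6⟩ := hv
  rw [← hE] at h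
  rw [dd02, HP, e0, e1, e2, e3, e4, e5, e6]
  simp only [map_ofNat, map_one, map_zero]
  push_cast
  linear_combination h

lemma a1_03 : A1 (⟨0, 3⟩ : G) = !![1, 0, 0; 0, 0, 1; 0, 1, 0] := by decide +kernel

lemma mv03 (v : Fin 11 → ℤ) : (A (⟨0, 3⟩ : G)).mulVec v =
    ![v 0, v 2, v 1, v 3, v 4, v 5, v 6, v 9, v 10, 3 * v 8 - v 7, v 8] := by
  rw [A_mulVec, vec11, a1_03]
  simp [A3, T, p3, Matrix.mulVec, dotProduct, Fin.sum_univ_succ]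
  try omega

open Polynomial in
lemma dd03 : DG (A (⟨0, 3⟩ : G)) = (1 - X) * (((1 - X ^ 2) * (1 - X)) * ((1 - X) ^ 4 * (1 - X ^ 4))) := by
  have h1 : Matrix.det (1 - (X : ℤ[X]) • (A1 (⟨0, 3⟩ : G)).map C) = (1 - X ^ 2) * (1 - X) := by
    rw [a1_03]
    simp [Matrix.det_fin_three]
    try ring
  have h3 : Matrix.det (1 - (X : ℤ[X]) • (A3 (⟨0, 3⟩ : G)).map C) = 1 - X ^ 4 := by
    simp [det4, A3, T]
    try ring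
  rw [DD_eq, h1, h3]

open PowerSeries in
lemma ser03 : (DG (A (⟨0, 3⟩ : G)) : PowerSeries ℤ) * E (⟨0, 3⟩ : G) = HP (⟨0, 3⟩ : G) := by
  have h := combine bpF12 bpC bpW1
  have hE : E (⟨0, 3⟩ : G) = PowerSeries.mk fun m : ℕ =>
      ((Set.ncard {v : Fin 11 → ℤ | (QF (p1 v) ∧ p1 v 1 = p1 v 2) ∧ QC (p2 m v) ∧
        (QW (p3 v) ∧ 2 * p3 v 0 = 3 * p3 v 1 ∧ p3 v 0 = p3 v 2 ∧ p3 v 1 = p3 v 3)} : ℕ) : ℤ) := by
    ext m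
    simp only [E, coeff_mk]
    congr 2
    ext v
    simp only [Set.mem_ofPred_eq, mv03]
    rw [vec11]
    simp [QZ, QF, QC, QW, p1, p2, p3, ht1, ht3]
    omega
  have hv : hh 0 (⟨0, 3⟩ : G) = 1 ∧ hh 1 (⟨0, 3⟩ : G) = 2 ∧ hh 2 (⟨0, 3⟩ : G) = 4 ∧ hh 3 (⟨0, 3⟩ : G) = 3 ∧ hh 4 (⟨0, 3⟩ : G) = 2 ∧ hh 5 (⟨0, 3⟩ : G) = 0 ∧ hh 6 (⟨0, 3⟩ : G) = 0 := by
    decide +kernel
  obtain ⟨e0, e1, e2, e3, e4, e5, e6⟩ := hv
  rw [← hE] at h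
  rw [dd03, HP, e0, e1, e2, e3, e4, e5, e6]
  simp only [map_ofNat, map_one, map_zero]
  push_cast
  apply mul_left_cancel₀ nz1
  linear_combination h

lemma a1_10 : A1 (⟨1, 0⟩ : G) = !![0, 0, 1; 1, 0, 0; 0, 1, 0] := by decide +kernel

lemma mv10 (v : Fin 11 → ℤ) : (A (⟨1, 0⟩ : G)).mulVec v =
    ![v 2, v 0, v 1, v 3, v 4, v 5, v 6, v 7, v 8, v 9, v 10] := by
  rw [A_mulVec, vec11, a1_10]
  simp [A3, T, p3, Matrix.mulVec, dotProduct, Fin.sum_univ_succ]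
  try omega

open Polynomial in
lemma dd10 : DG (A (⟨1, 0⟩ : G)) = (1 - X) * ((1 - X ^ 3) * ((1 - X) ^ 4 * ((1 - X) ^ 4))) := by
  have h1 : Matrix.det (1 - (X : ℤ[X]) • (A1 (⟨1, 0⟩ : G)).map C) = 1 - X ^ 3 := by
    rw [a1_10]
    simp [Matrix.det_fin_three]
    try ring
  have h3 : Matrix.det (1 - (X : ℤ[X]) • (A3 (⟨1, 0⟩ : G)).map C) = (1 - X) ^ 4 := by
    simp [det4, A3, T]
    try ring
  rw [DD_eq, h1, h3]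

open PowerSeries in
lemma ser10 : (DG (A (⟨1, 0⟩ : G)) : PowerSeries ℤ) * E (⟨1, 0⟩ : G) = HP (⟨1, 0⟩ : G) := by
  have h := combine bpF3 bpC bpW0
  have hE : E (⟨1, 0⟩ : G) = PowerSeries.mk fun m : ℕ =>
      ((Set.ncard {v : Fin 11 → ℤ | (QF (p1 v) ∧ p1 v 0 = p1 v 1 ∧ p1 v 1 = p1 v 2) ∧ QC (p2 m v) ∧
        QW (p3 v)} : ℕ) : ℤ) := by
    ext m
    simp only [E, coeff_mk]
    congr 2
    ext v
    simp only [Set.mem_ofPred_eq, mv10]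
    rw [vec11]
    simp [QZ, QF, QC, QW, p1, p2, p3, ht1, ht3]
    omega
  have hv : hh 0 (⟨1, 0⟩ : G) = 1 ∧ hh 1 (⟨1, 0⟩ : G) = 5 ∧ hh 2 (⟨1, 0⟩ : G) = 8 ∧ hh 3 (⟨1, 0⟩ : G) = 6 ∧ hh 4 (⟨1, 0⟩ : G) = 10 ∧ hh 5 (⟨1, 0⟩ : G) = 16 ∧ hh 6 (⟨1, 0⟩ : G) = 8 := by
    decide +kernel
  obtain ⟨e0, e1, e2, e3, e4, e5, e6⟩ := hv
  rw [← hE] at h
  rw [dd10, HP, e0, e1, e2, e3, e4, e5, e6]
  simp only [map_ofNat, map_one, map_zero]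
  push_cast
  apply mul_left_cancel₀ nz2
  linear_combination h

lemma a1_11 : A1 (⟨1, 1⟩ : G) = !![0, 1, 0; 1, 0, 0; 0, 0, 1] := by decide +kernel

lemma mv11 (v : Fin 11 → ℤ) : (A (⟨1, 1⟩ : G)).mulVec v =
    ![v 1, v 0, v 2, v 3, v 4, v 5, v 6, 3 * v 10 - v 9, v 10, v 7, v 8] := by
  rw [A_mulVec, vec11, a1_11]
  simp [A3, T, p3, Matrix.mulVec, dotProduct, Fin.sum_univ_succ]
  try omega

open Polynomial in
lemma dd11 : DG (A (⟨1, 1⟩ : G)) = (1 - X) * (((1 - X ^ 2) * (1 - X)) * ((1 - X) ^ 4 * (1 - X ^ 4))) := by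
  have h1 : Matrix.det (1 - (X : ℤ[X]) • (A1 (⟨1, 1⟩ : G)).map C) = (1 - X ^ 2) * (1 - X) := by
    rw [a1_11]
    simp [Matrix.det_fin_three]
    try ring
  have h3 : Matrix.det (1 - (X : ℤ[X]) • (A3 (⟨1, 1⟩ : G)).map C) = 1 - X ^ 4 := by
    simp [det4, A3, T]
    try ring
  rw [DD_eq, h1, h3]

open PowerSeries in
lemma ser11 : (DG (A (⟨1, 1⟩ : G)) : PowerSeries ℤ) * E (⟨1, 1⟩ : G) = HP (⟨1, 1⟩ : G) := by
  have h := combine bpF01 bpC bpW1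
  have hE : E (⟨1, 1⟩ : G) = PowerSeries.mk fun m : ℕ =>
      ((Set.ncard {v : Fin 11 → ℤ | (QF (p1 v) ∧ p1 v 0 = p1 v 1) ∧ QC (p2 m v) ∧
        (QW (p3 v) ∧ 2 * p3 v 0 = 3 * p3 v 1 ∧ p3 v 0 = p3 v 2 ∧ p3 v 1 = p3 v 3)} : ℕ) : ℤ) := by
    ext m
    simp only [E, coeff_mk]
    congr 2
    ext v
    simp only [Set.mem_ofPred_eq, mv11]
    rw [vec11]
    simp [QZ, QF, QC, QW, p1, p2, p3, ht1, ht3]
    omega
  have hv : hh 0 (⟨1, 1⟩ : G) = 1 ∧ hh 1 (⟨1, 1⟩ : G) = 2 ∧ hh 2 (⟨1, 1⟩ : G) = 4 ∧ hh 3 (⟨1, 1⟩ : G) = 3 ∧ hh 4 (⟨1, 1⟩ : G) = 2 ∧ hh 5 (⟨1, 1⟩ : G) = 0 ∧ hh 6 (⟨1, 1⟩ : G) = 0 := by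
    decide +kernel
  obtain ⟨e0, e1, e2, e3, e4, e5, e6⟩ := hv
  rw [← hE] at h
  rw [dd11, HP, e0, e1, e2, e3, e4, e5, e6]
  simp only [map_ofNat, map_one, map_zero]
  push_cast
  apply mul_left_cancel₀ nz1
  linear_combination h

lemma a1_12 : A1 (⟨1, 2⟩ : G) = !![0, 0, 1; 1, 0, 0; 0, 1, 0] := by decide +kernel

lemma mv12 (v : Fin 11 → ℤ) : (A (⟨1, 2⟩ : G)).mulVec v =
    ![v 2, v 0, v 1, v 3, v 4, v 5, v 6, 3 * v 8 - v 7, v 8, 3 * v 10 - v 9, v 10] := by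
  rw [A_mulVec, vec11, a1_12]
  simp [A3, T, p3, Matrix.mulVec, dotProduct, Fin.sum_univ_succ]
  try omega

open Polynomial in
lemma dd12 : DG (A (⟨1, 2⟩ : G)) = (1 - X) * ((1 - X ^ 3) * ((1 - X) ^ 4 * ((1 - X ^ 2) ^ 2))) := by
  have h1 : Matrix.det (1 - (X : ℤ[X]) • (A1 (⟨1, 2⟩ : G)).map C) = 1 - X ^ 3 := by
    rw [a1_12]
    simp [Matrix.det_fin_three]
    try ring
  have h3 : Matrix.det (1 - (X : ℤ[X]) • (A3 (⟨1, 2⟩ : G)).map C) = (1 - X ^ 2) ^ 2 := by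
    simp [det4, A3, T]
    try ring
  rw [DD_eq, h1, h3]

open PowerSeries in
lemma ser12 : (DG (A (⟨1, 2⟩ : G)) : PowerSeries ℤ) * E (⟨1, 2⟩ : G) = HP (⟨1, 2⟩ : G) := by
  have h := combine bpF3 bpC bpW2
  have hE : E (⟨1, 2⟩ : G) = PowerSeries.mk fun m : ℕ =>
      ((Set.ncard {v : Fin 11 → ℤ | (QF (p1 v) ∧ p1 v 0 = p1 v 1 ∧ p1 v 1 = p1 v 2) ∧ QC (p2 m v) ∧
        (QW (p3 v) ∧ 2 * p3 v 0 = 3 * p3 v 1 ∧ 2 * p3 v 2 = 3 * p3 v 3)} : ℕ) : ℤ) := by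
    ext m
    simp only [E, coeff_mk]
    congr 2
    ext v
    simp only [Set.mem_ofPred_eq, mv12]
    rw [vec11]
    simp [QZ, QF, QC, QW, p1, p2, p3, ht1, ht3]
    omega
  have hv : hh 0 (⟨1, 2⟩ : G) = 1 ∧ hh 1 (⟨1, 2⟩ : G) = 1 ∧ hh 2 (⟨1, 2⟩ : G) = 0 ∧ hh 3 (⟨1, 2⟩ : G) = 2 ∧ hh 4 (⟨1, 2⟩ : G) = 2 ∧ hh 5 (⟨1, 2⟩ : G) = 0 ∧ hh 6 (⟨1, 2⟩ : G) = 0 := by
    decide +kernel
  obtain ⟨e0, e1, e2, e3, e4, e5, e6⟩ := hv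
  rw [← hE] at h
  rw [dd12, HP, e0, e1, e2, e3, e4, e5, e6]
  simp only [map_ofNat, map_one, map_zero]
  push_cast
  apply mul_left_cancel₀ nz2
  linear_combination h

lemma a1_13 : A1 (⟨1, 3⟩ : G) = !![0, 1, 0; 1, 0, 0; 0, 0, 1] := by decide +kernel

lemma mv13 (v : Fin 11 → ℤ) : (A (⟨1, 3⟩ : G)).mulVec v =
    ![v 1, v 0, v 2, v 3, v 4, v 5, v 6, v 9, v 10, 3 * v 8 - v 7, v 8] := by
  rw [A_mulVec, vec11, a1_13]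
  simp [A3, T, p3, Matrix.mulVec, dotProduct, Fin.sum_univ_succ]
  try omega

open Polynomial in
lemma dd13 : DG (A (⟨1, 3⟩ : G)) = (1 - X) * (((1 - X ^ 2) * (1 - X)) * ((1 - X) ^ 4 * (1 - X ^ 4))) := by
  have h1 : Matrix.det (1 - (X : ℤ[X]) • (A1 (⟨1, 3⟩ : G)).map C) = (1 - X ^ 2) * (1 - X) := by
    rw [a1_13]
    simp [Matrix.det_fin_three]
    try ring
  have h3 : Matrix.det (1 - (X : ℤ[X]) • (A3 (⟨1, 3⟩ : G)).map C) = 1 - X ^ 4 := by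
    simp [det4, A3, T]
    try ring
  rw [DD_eq, h1, h3]

open PowerSeries in
lemma ser13 : (DG (A (⟨1, 3⟩ : G)) : PowerSeries ℤ) * E (⟨1, 3⟩ : G) = HP (⟨1, 3⟩ : G) := by
  have h := combine bpF01 bpC bpW1
  have hE : E (⟨1, 3⟩ : G) = PowerSeries.mk fun m : ℕ =>
      ((Set.ncard {v : Fin 11 → ℤ | (QF (p1 v) ∧ p1 v 0 = p1 v 1) ∧ QC (p2 m v) ∧
        (QW (p3 v) ∧ 2 * p3 v 0 = 3 * p3 v 1 ∧ p3 v 0 = p3 v 2 ∧ p3 v 1 = p3 v 3)} : ℕ) : ℤ) := by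
    ext m
    simp only [E, coeff_mk]
    congr 2
    ext v
    simp only [Set.mem_ofPred_eq, mv13]
    rw [vec11]
    simp [QZ, QF, QC, QW, p1, p2, p3, ht1, ht3]
    omega
  have hv : hh 0 (⟨1, 3⟩ : G) = 1 ∧ hh 1 (⟨1, 3⟩ : G) = 2 ∧ hh 2 (⟨1, 3⟩ : G) = 4 ∧ hh 3 (⟨1, 3⟩ : G) = 3 ∧ hh 4 (⟨1, 3⟩ : G) = 2 ∧ hh 5 (⟨1, 3⟩ : G) = 0 ∧ hh 6 (⟨1, 3⟩ : G) = 0 := by
    decide +kernel
  obtain ⟨e0, e1, e2, e3, e4, e5, e6⟩ := hv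
  rw [← hE] at h
  rw [dd13, HP, e0, e1, e2, e3, e4, e5, e6]
  simp only [map_ofNat, map_one, map_zero]
  push_cast
  apply mul_left_cancel₀ nz1
  linear_combination h

lemma a1_20 : A1 (⟨2, 0⟩ : G) = !![0, 1, 0; 0, 0, 1; 1, 0, 0] := by decide +kernel

lemma mv20 (v : Fin 11 → ℤ) : (A (⟨2, 0⟩ : G)).mulVec v =
    ![v 1, v 2, v 0, v 3, v 4, v 5, v 6, v 7, v 8, v 9, v 10] := by
  rw [A_mulVec, vec11, a1_20]
  simp [A3, T, p3, Matrix.mulVec, dotProduct, Fin.sum_univ_succ]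
  try omega

open Polynomial in
lemma dd20 : DG (A (⟨2, 0⟩ : G)) = (1 - X) * ((1 - X ^ 3) * ((1 - X) ^ 4 * ((1 - X) ^ 4))) := by
  have h1 : Matrix.det (1 - (X : ℤ[X]) • (A1 (⟨2, 0⟩ : G)).map C) = 1 - X ^ 3 := by
    rw [a1_20]
    simp [Matrix.det_fin_three]
    try ring
  have h3 : Matrix.det (1 - (X : ℤ[X]) • (A3 (⟨2, 0⟩ : G)).map C) = (1 - X) ^ 4 := by
    simp [det4, A3, T]
    try ring
  rw [DD_eq, h1, h3]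

open PowerSeries in
lemma ser20 : (DG (A (⟨2, 0⟩ : G)) : PowerSeries ℤ) * E (⟨2, 0⟩ : G) = HP (⟨2, 0⟩ : G) := by
  have h := combine bpF3 bpC bpW0
  have hE : E (⟨2, 0⟩ : G) = PowerSeries.mk fun m : ℕ =>
      ((Set.ncard {v : Fin 11 → ℤ | (QF (p1 v) ∧ p1 v 0 = p1 v 1 ∧ p1 v 1 = p1 v 2) ∧ QC (p2 m v) ∧
        QW (p3 v)} : ℕ) : ℤ) := by
    ext m
    simp only [E, coeff_mk]
    congr 2
    ext v
    simp only [Set.mem_ofPred_eq, mv20]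
    rw [vec11]
    simp [QZ, QF, QC, QW, p1, p2, p3, ht1, ht3]
    omega
  have hv : hh 0 (⟨2, 0⟩ : G) = 1 ∧ hh 1 (⟨2, 0⟩ : G) = 5 ∧ hh 2 (⟨2, 0⟩ : G) = 8 ∧ hh 3 (⟨2, 0⟩ : G) = 6 ∧ hh 4 (⟨2, 0⟩ : G) = 10 ∧ hh 5 (⟨2, 0⟩ : G) = 16 ∧ hh 6 (⟨2, 0⟩ : G) = 8 := by
    decide +kernel
  obtain ⟨e0, e1, e2, e3, e4, e5, e6⟩ := hv
  rw [← hE] at h
  rw [dd20, HP, e0, e1, e2, e3, e4, e5, e6]
  simp only [map_ofNat, map_one, map_zero]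
  push_cast
  apply mul_left_cancel₀ nz2
  linear_combination h

lemma a1_21 : A1 (⟨2, 1⟩ : G) = !![0, 0, 1; 0, 1, 0; 1, 0, 0] := by decide +kernel

lemma mv21 (v : Fin 11 → ℤ) : (A (⟨2, 1⟩ : G)).mulVec v =
    ![v 2, v 1, v 0, v 3, v 4, v 5, v 6, 3 * v 10 - v 9, v 10, v 7, v 8] := by
  rw [A_mulVec, vec11, a1_21]
  simp [A3, T, p3, Matrix.mulVec, dotProduct, Fin.sum_univ_succ]
  try omega

open Polynomial in
lemma dd21 : DG (A (⟨2, 1⟩ : G)) = (1 - X) * (((1 - X ^ 2) * (1 - X)) * ((1 - X) ^ 4 * (1 - X ^ 4))) := by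
  have h1 : Matrix.det (1 - (X : ℤ[X]) • (A1 (⟨2, 1⟩ : G)).map C) = (1 - X ^ 2) * (1 - X) := by
    rw [a1_21]
    simp [Matrix.det_fin_three]
    try ring
  have h3 : Matrix.det (1 - (X : ℤ[X]) • (A3 (⟨2, 1⟩ : G)).map C) = 1 - X ^ 4 := by
    simp [det4, A3, T]
    try ring
  rw [DD_eq, h1, h3]

open PowerSeries in
lemma ser21 : (DG (A (⟨2, 1⟩ : G)) : PowerSeries ℤ) * E (⟨2, 1⟩ : G) = HP (⟨2, 1⟩ : G) := by
  have h := combine bpF02 bpC bpW1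
  have hE : E (⟨2, 1⟩ : G) = PowerSeries.mk fun m : ℕ =>
      ((Set.ncard {v : Fin 11 → ℤ | (QF (p1 v) ∧ p1 v 0 = p1 v 2) ∧ QC (p2 m v) ∧
        (QW (p3 v) ∧ 2 * p3 v 0 = 3 * p3 v 1 ∧ p3 v 0 = p3 v 2 ∧ p3 v 1 = p3 v 3)} : ℕ) : ℤ) := by
    ext m
    simp only [E, coeff_mk]
    congr 2
    ext v
    simp only [Set.mem_ofPred_eq, mv21]
    rw [vec11]
    simp [QZ, QF, QC, QW, p1, p2, p3, ht1, ht3]
    omega
  have hv : hh 0 (⟨2, 1⟩ : G) = 1 ∧ hh 1 (⟨2, 1⟩ : G) = 2 ∧ hh 2 (⟨2, 1⟩ : G) = 4 ∧ hh 3 (⟨2, 1⟩ : G) = 3 ∧ hh 4 (⟨2, 1⟩ : G) = 2 ∧ hh 5 (⟨2, 1⟩ : G) = 0 ∧ hh 6 (⟨2, 1⟩ : G) = 0 := by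
    decide +kernel
  obtain ⟨e0, e1, e2, e3, e4, e5, e6⟩ := hv
  rw [← hE] at h
  rw [dd21, HP, e0, e1, e2, e3, e4, e5, e6]
  simp only [map_ofNat, map_one, map_zero]
  push_cast
  apply mul_left_cancel₀ nz1
  linear_combination h

lemma a1_22 : A1 (⟨2, 2⟩ : G) = !![0, 1, 0; 0, 0, 1; 1, 0, 0] := by decide +kernel

lemma mv22 (v : Fin 11 → ℤ) : (A (⟨2, 2⟩ : G)).mulVec v =
    ![v 1, v 2, v 0, v 3, v 4, v 5, v 6, 3 * v 8 - v 7, v 8, 3 * v 10 - v 9, v 10] := by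
  rw [A_mulVec, vec11, a1_22]
  simp [A3, T, p3, Matrix.mulVec, dotProduct, Fin.sum_univ_succ]
  try omega

open Polynomial in
lemma dd22 : DG (A (⟨2, 2⟩ : G)) = (1 - X) * ((1 - X ^ 3) * ((1 - X) ^ 4 * ((1 - X ^ 2) ^ 2))) := by
  have h1 : Matrix.det (1 - (X : ℤ[X]) • (A1 (⟨2, 2⟩ : G)).map C) = 1 - X ^ 3 := by
    rw [a1_22]
    simp [Matrix.det_fin_three]
    try ring
  have h3 : Matrix.det (1 - (X : ℤ[X]) • (A3 (⟨2, 2⟩ : G)).map C) = (1 - X ^ 2) ^ 2 := by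
    simp [det4, A3, T]
    try ring
  rw [DD_eq, h1, h3]

open PowerSeries in
lemma ser22 : (DG (A (⟨2, 2⟩ : G)) : PowerSeries ℤ) * E (⟨2, 2⟩ : G) = HP (⟨2, 2⟩ : G) := by
  have h := combine bpF3 bpC bpW2
  have hE : E (⟨2, 2⟩ : G) = PowerSeries.mk fun m : ℕ =>
      ((Set.ncard {v : Fin 11 → ℤ | (QF (p1 v) ∧ p1 v 0 = p1 v 1 ∧ p1 v 1 = p1 v 2) ∧ QC (p2 m v) ∧
        (QW (p3 v) ∧ 2 * p3 v 0 = 3 * p3 v 1 ∧ 2 * p3 v 2 = 3 * p3 v 3)} : ℕ) : ℤ) := by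
    ext m
    simp only [E, coeff_mk]
    congr 2
    ext v
    simp only [Set.mem_ofPred_eq, mv22]
    rw [vec11]
    simp [QZ, QF, QC, QW, p1, p2, p3, ht1, ht3]
    omega
  have hv : hh 0 (⟨2, 2⟩ : G) = 1 ∧ hh 1 (⟨2, 2⟩ : G) = 1 ∧ hh 2 (⟨2, 2⟩ : G) = 0 ∧ hh 3 (⟨2, 2⟩ : G) = 2 ∧ hh 4 (⟨2, 2⟩ : G) = 2 ∧ hh 5 (⟨2, 2⟩ : G) = 0 ∧ hh 6 (⟨2, 2⟩ : G) = 0 := by
    decide +kernel
  obtain ⟨e0, e1, e2, e3, e4, e5, e6⟩ := hv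
  rw [← hE] at h
  rw [dd22, HP, e0, e1, e2, e3, e4, e5, e6]
  simp only [map_ofNat, map_one, map_zero]
  push_cast
  apply mul_left_cancel₀ nz2
  linear_combination h

lemma a1_23 : A1 (⟨2, 3⟩ : G) = !![0, 0, 1; 0, 1, 0; 1, 0, 0] := by decide +kernel

lemma mv23 (v : Fin 11 → ℤ) : (A (⟨2, 3⟩ : G)).mulVec v =
    ![v 2, v 1, v 0, v 3, v 4, v 5, v 6, v 9, v 10, 3 * v 8 - v 7, v 8] := by
  rw [A_mulVec, vec11, a1_23]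
  simp [A3, T, p3, Matrix.mulVec, dotProduct, Fin.sum_univ_succ]
  try omega

open Polynomial in
lemma dd23 : DG (A (⟨2, 3⟩ : G)) = (1 - X) * (((1 - X ^ 2) * (1 - X)) * ((1 - X) ^ 4 * (1 - X ^ 4))) := by
  have h1 : Matrix.det (1 - (X : ℤ[X]) • (A1 (⟨2, 3⟩ : G)).map C) = (1 - X ^ 2) * (1 - X) := by
    rw [a1_23]
    simp [Matrix.det_fin_three]
    try ring
  have h3 : Matrix.det (1 - (X : ℤ[X]) • (A3 (⟨2, 3⟩ : G)).map C) = 1 - X ^ 4 := by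
    simp [det4, A3, T]
    try ring
  rw [DD_eq, h1, h3]

open PowerSeries in
lemma ser23 : (DG (A (⟨2, 3⟩ : G)) : PowerSeries ℤ) * E (⟨2, 3⟩ : G) = HP (⟨2, 3⟩ : G) := by
  have h := combine bpF02 bpC bpW1
  have hE : E (⟨2, 3⟩ : G) = PowerSeries.mk fun m : ℕ =>
      ((Set.ncard {v : Fin 11 → ℤ | (QF (p1 v) ∧ p1 v 0 = p1 v 2) ∧ QC (p2 m v) ∧
        (QW (p3 v) ∧ 2 * p3 v 0 = 3 * p3 v 1 ∧ p3 v 0 = p3 v 2 ∧ p3 v 1 = p3 v 3)} : ℕ) : ℤ) := by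
    ext m
    simp only [E, coeff_mk]
    congr 2
    ext v
    simp only [Set.mem_ofPred_eq, mv23]
    rw [vec11]
    simp [QZ, QF, QC, QW, p1, p2, p3, ht1, ht3]
    omega
  have hv : hh 0 (⟨2, 3⟩ : G) = 1 ∧ hh 1 (⟨2, 3⟩ : G) = 2 ∧ hh 2 (⟨2, 3⟩ : G) = 4 ∧ hh 3 (⟨2, 3⟩ : G) = 3 ∧ hh 4 (⟨2, 3⟩ : G) = 2 ∧ hh 5 (⟨2, 3⟩ : G) = 0 ∧ hh 6 (⟨2, 3⟩ : G) = 0 := by
    decide +kernel
  obtain ⟨e0, e1, e2, e3, e4, e5, e6⟩ := hv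
  rw [← hE] at h
  rw [dd23, HP, e0, e1, e2, e3, e4, e5, e6]
  simp only [map_ofNat, map_one, map_zero]
  push_cast
  apply mul_left_cancel₀ nz1
  linear_combination h

lemma all_cases (p : G → Prop) (h00 : p ⟨0, 0⟩) (h01 : p ⟨0, 1⟩) (h02 : p ⟨0, 2⟩) (h03 : p ⟨0, 3⟩)
    (h10 : p ⟨1, 0⟩) (h11 : p ⟨1, 1⟩) (h12 : p ⟨1, 2⟩) (h13 : p ⟨1, 3⟩)
    (h20 : p ⟨2, 0⟩) (h21 : p ⟨2, 1⟩) (h22 : p ⟨2, 2⟩) (h23 : p ⟨2, 3⟩) (g : G) : p g := by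
  obtain ⟨a, k⟩ := g
  fin_cases a <;> fin_cases k <;> assumption

lemma ser (g : G) : (DG (A g) : PowerSeries ℤ) * E g = HP g :=
  all_cases (fun g => (DG (A g) : PowerSeries ℤ) * E g = HP g) ser00 ser01 ser02 ser03
    ser10 ser11 ser12 ser13 ser20 ser21 ser22 ser23 g

lemma coeff_HP (g : G) (i : ℕ) : PowerSeries.coeff i (HP g) = hh i g := by
  simp only [HP, map_add, PowerSeries.coeff_C_mul, PowerSeries.coeff_X_pow, PowerSeries.coeff_X,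
    PowerSeries.coeff_C]
  match i with
  | 0 => simp
  | 1 => simp
  | 2 => simp
  | 3 => simp
  | 4 => simp
  | 5 => simp
  | 6 => simp
  | n + 7 => simp [hh]

lemma conv_coeff (F : PowerSeries ℤ) (p : Polynomial ℤ) (i : ℕ) :
    ∑ j ∈ Finset.range (i + 1), p.coeff j * PowerSeries.coeff (i - j) F
      = PowerSeries.coeff i ((p : PowerSeries ℤ) * F) := by
  rw [PowerSeries.coeff_mul,
    Finset.Nat.sum_antidiagonal_eq_sum_range_succ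
      (fun a b => PowerSeries.coeff a (p : PowerSeries ℤ) * PowerSeries.coeff b F)]
  refine Finset.sum_congr rfl fun j _ => ?_
  rw [Polynomial.coeff_coe]

lemma hh_eq (i : ℕ) (g : G) : hh i g =
        ∑ j ∈ Finset.range (i + 1),
          Polynomial.coeff ((1 - Polynomial.X) *
              Matrix.det (1 - (Polynomial.X : Polynomial ℤ) •
                ((LinearMap.toMatrix'
                  ((ρ g).linear : (Fin 11 → ℤ) →ₗ[ℤ] (Fin 11 → ℤ))).map Polynomial.C))) j *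
            (({x : Fin 11 → ℤ | (fun k => (x k : ℝ)) ∈ ((i - j : ℕ) : ℝ) • convexHull ℝ SR ∧
                (ρ g).linear x + (i - j : ℕ) • (ρ g 0) = x}.ncard : ℕ) : ℤ) := by
  rw [← coeff_HP, ← ser, ← conv_coeff, ρ_mat, DG_def]
  refine Finset.sum_congr rfl fun j _ => ?_
  simp only [mem_dilate, ρ_lin, ρ_apply, Matrix.mulVec_zero, smul_zero, add_zero, E,
    PowerSeries.coeff_mk]

lemma QZ_inv (g : G) : ∀ v : Fin 11 → ℤ, QZ 1 v → QZ 1 ((A g).mulVec v) := by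
  refine all_cases (fun g => ∀ v : Fin 11 → ℤ, QZ 1 v → QZ 1 ((A g).mulVec v))
    ?_ ?_ ?_ ?_ ?_ ?_ ?_ ?_ ?_ ?_ ?_ ?_ g
  all_goals
    intro v hv
    simp only [mv00, mv01, mv02, mv03, mv10, mv11, mv12, mv13, mv20, mv21, mv22, mv23]
    simp only [QZ] at hv ⊢
    simp
    omega

lemma inv_hull (g : G) (x : Fin 11 → ℤ) (hx : (fun k => (x k : ℝ)) ∈ convexHull ℝ SR) :
    (fun k => ((ρ g x) k : ℝ)) ∈ convexHull ℝ SR := by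
  have h1 := (mem_dilate 1 (ρ g x)).2
  have h2 := (mem_dilate 1 x).1
  simp only [Nat.cast_one, one_smul] at h1 h2
  exact h1 (QZ_inv g x (h2 hx))

end Pool.Agent.H.MP_769135_co
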